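import Mathlib

set_option autoImplicit false

open Finset

namespace Pool.Agent.H66.SP

/-- Pairwise unrelated. -/
def Indep {V : Type*} (R : V → V → Prop) (I : Finset V) : Prop :=
  ∀ u ∈ I, ∀ v ∈ I, u ≠ v → ¬ R u v

/-- Greedy independent sets. -/
lemma exists_indep {V : Type*} [DecidableEq V] (S : Finset V) (R : V → V → Prop)
    (d : ℕ) (hrefl : ∀ v ∈ S, R v v) (hsymm : ∀ u v, R u v → R v u)
    (hd : ∀ v ∈ S, ∃ X : Finset V, X.card ≤ d ∧ ∀ u ∈ S, R v u → u ∈ X) :
    ∃ I ⊆ S, (∀ u ∈ I, ∀ v ∈ I, u ≠ v → ¬ R u v) ∧ S.card ≤ d * I.card := by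
  classical
  set F := S.powerset.filter (fun I => Indep R I) with hF
  have hFne : F.Nonempty := ⟨∅, by
    rw [hF, mem_filter, mem_powerset]
    exact ⟨empty_subset _, fun u hu => absurd hu (notMem_empty u)⟩⟩
  obtain ⟨I, hI, hmax⟩ := exists_max_image F card hFne
  rw [hF, mem_filter, mem_powerset] at hI
  refine ⟨I, hI.1, hI.2, ?_⟩
  choose! X hXcard hX using hd
  have hcover : S ⊆ I.biUnion X := by
    intro u hu
    rw [mem_biUnion]
    by_contra hcon
    push Not at hcon
    have huI : u ∉ I := by
      intro huI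
      exact hcon u huI (hX u hu u hu (hrefl u hu))
    have hnot : ∀ v ∈ I, ¬ R v u := fun v hv hR => hcon v hv (hX v (hI.1 hv) u hu hR)
    have hins : insert u I ∈ F := by
      rw [hF, mem_filter, mem_powerset]
      refine ⟨insert_subset hu hI.1, ?_⟩
      intro a ha b hb hab
      rw [mem_insert] at ha hb
      rcases ha with rfl | ha
      · rcases hb with rfl | hb
        · exact (hab rfl).elim
        · exact fun hR => hnot b hb (hsymm _ _ hR)
      · rcases hb with rfl | hb
        · exact hnot a ha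
        · exact hI.2 a ha b hb hab
    have := hmax _ hins
    rw [card_insert_of_notMem huI] at this
    omega
  calc S.card ≤ (I.biUnion X).card := card_le_card hcover
    _ ≤ ∑ v ∈ I, (X v).card := card_biUnion_le
    _ ≤ ∑ _v ∈ I, d := sum_le_sum (fun v hv => hXcard v (hI.1 hv))
    _ = d * I.card := by rw [sum_const, smul_eq_mul, mul_comm]

section windows

variable {k : ℕ} (π : Equiv.Perm (Fin k))

/-- The value together with its two time neighbours. -/
def nbr (i : Fin k) : Finset (Fin k) := {i, π i, π.symm i}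

lemma mem_nbr {i j : Fin k} : j ∈ nbr π i ↔ j = i ∨ j = π i ∨ j = π.symm i := by
  simp [nbr]

lemma mem_nbr_symm {i j : Fin k} (h : j ∈ nbr π i) : i ∈ nbr π j := by
  rw [mem_nbr] at h ⊢
  rcases h with rfl | rfl | rfl
  · exact Or.inl rfl
  · exact Or.inr (Or.inr (by simp))
  · exact Or.inr (Or.inl (by simp))

lemma card_nbr (i : Fin k) : (nbr π i).card ≤ 3 := card_le_three

/-- Conflict of two values. -/
def conf (i i' : Fin k) : Prop :=
  ∃ j ∈ nbr π i, ∃ j' ∈ nbr π i', j.val ≤ j'.val + 1 ∧ j'.val ≤ j.val + 1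

lemma conf_symm {i i' : Fin k} (h : conf π i i') : conf π i' i := by
  obtain ⟨j, hj, j', hj', h1, h2⟩ := h
  exact ⟨j', hj', j, hj, h2, h1⟩

lemma conf_refl (i : Fin k) : conf π i i :=
  ⟨i, by simp [mem_nbr], i, by simp [mem_nbr], by omega, by omega⟩

lemma card_near (j : Fin k) :
    ((univ : Finset (Fin k)).filter (fun j' => j.val ≤ j'.val + 1 ∧ j'.val ≤ j.val + 1)).card
      ≤ 3 := by
  calc ((univ : Finset (Fin k)).filter
        (fun j' => j.val ≤ j'.val + 1 ∧ j'.val ≤ j.val + 1)).card
      ≤ (Finset.Icc (j.val - 1) (j.val + 1)).card := by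
        apply Finset.card_le_card_of_injOn (fun j' : Fin k => j'.val)
        · intro x hx
          simp only [coe_filter, mem_univ, true_and, Set.mem_ofPred_eq] at hx
          simp only [coe_Icc, Set.mem_Icc]
          omega
        · intro a _ b _ h
          exact Fin.ext h
    _ ≤ 3 := by
        rw [Nat.card_Icc]
        omega

lemma card_conf (i : Fin k) : ∃ X : Finset (Fin k), X.card ≤ 27 ∧ ∀ i', conf π i i' → i' ∈ X := by
  classical
  refine ⟨(nbr π i).biUnion (fun j => ((univ : Finset (Fin k)).filter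
    (fun j' => j.val ≤ j'.val + 1 ∧ j'.val ≤ j.val + 1)).biUnion (fun j' => nbr π j')), ?_, ?_⟩
  · calc _ ≤ ∑ j ∈ nbr π i, (((univ : Finset (Fin k)).filter
          (fun j' => j.val ≤ j'.val + 1 ∧ j'.val ≤ j.val + 1)).biUnion
            (fun j' => nbr π j')).card := card_biUnion_le
      _ ≤ ∑ _j ∈ nbr π i, 9 := by
          apply sum_le_sum
          intro j _
          calc _ ≤ ∑ j' ∈ ((univ : Finset (Fin k)).filter
                (fun j' => j.val ≤ j'.val + 1 ∧ j'.val ≤ j.val + 1)), (nbr π j').card :=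
                card_biUnion_le
            _ ≤ ∑ _j' ∈ ((univ : Finset (Fin k)).filter
                (fun j' => j.val ≤ j'.val + 1 ∧ j'.val ≤ j.val + 1)), 3 :=
                sum_le_sum (fun j' _ => card_nbr π j')
            _ ≤ 9 := by
                rw [sum_const, smul_eq_mul]
                have := card_near j
                omega
      _ ≤ 27 := by
          rw [sum_const, smul_eq_mul]
          have := card_nbr π i
          omega
  · rintro i' ⟨j, hj, j', hj', h1, h2⟩
    rw [mem_biUnion]
    refine ⟨j, hj, ?_⟩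
    rw [mem_biUnion]
    refine ⟨j', ?_, mem_nbr_symm π hj'⟩
    simp only [mem_filter, mem_univ, true_and]
    exact ⟨h1, h2⟩

/-- The window of index `x`. -/
def wnd (k w x : ℕ) : Finset (Fin k) := univ.filter (fun i => i.val / w = x)

lemma card_wnd_le {w x : ℕ} (hw : 0 < w) : (wnd k w x).card ≤ w := by
  calc (wnd k w x).card ≤ (Finset.Ico (x * w) ((x + 1) * w)).card := by
        apply Finset.card_le_card_of_injOn (fun j' : Fin k => j'.val)
        · intro i hi
          simp only [wnd, coe_filter, mem_univ, true_and, Set.mem_ofPred_eq] at hi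
          simp only [coe_Ico, Set.mem_Ico]
          have := (Nat.div_eq_iff hw).mp hi
          constructor
          · exact this.1
          · have h2 := this.2
            have : (x + 1) * w = x * w + w := by ring
            omega
        · intro a _ b _ h
          exact Fin.ext h
    _ = w := by
        rw [Nat.card_Ico]
        have : (x + 1) * w = x * w + w := by ring
        omega

lemma card_wnd_ge {w x : ℕ} (hw : 0 < w) (hx : x < k / w) : w ≤ (wnd k w x).card := by
  have hk : (x + 1) * w ≤ k := by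
    calc (x + 1) * w ≤ (k / w) * w := Nat.mul_le_mul_right _ hx
      _ ≤ k := Nat.div_mul_le_self k w
  have hexp : (x + 1) * w = x * w + w := by ring
  have hlt : ∀ m ∈ Finset.Ico (x * w) ((x + 1) * w), m < k := by
    intro m hm
    rw [Finset.mem_Ico] at hm
    omega
  calc w = ((Finset.Ico (x * w) ((x + 1) * w)).attachFin hlt).card := by
        rw [card_attachFin, Nat.card_Ico]
        omega
    _ ≤ (wnd k w x).card := by
        apply card_le_card
        intro i hi
        rw [mem_attachFin, Finset.mem_Ico] at hi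
        simp only [wnd, mem_filter, mem_univ, true_and]
        rw [Nat.div_eq_iff hw]
        omega

/-- Adjacency of windows. -/
def adj (w x x' : ℕ) : Prop :=
  x = x' ∨ ∃ i : Fin k, (i.val / w = x ∧ (π i).val / w = x') ∨
    (i.val / w = x' ∧ (π i).val / w = x)

lemma adj_symm {w x x' : ℕ} (h : adj π w x x') : adj π w x' x := by
  rcases h with h | ⟨i, h | h⟩
  · exact Or.inl h.symm
  · exact Or.inr ⟨i, Or.inr h⟩
  · exact Or.inr ⟨i, Or.inl h⟩

lemma card_adj {w : ℕ} (hw : 0 < w) (x : ℕ) :
    ∃ X : Finset ℕ, X.card ≤ 2 * w + 1 ∧ ∀ x', adj π w x x' → x' ∈ X := by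
  classical
  refine ⟨{x} ∪ ((wnd k w x).image (fun i => (π i).val / w) ∪
    (wnd k w x).image (fun i => (π.symm i).val / w)), ?_, ?_⟩
  · calc _ ≤ ({x} : Finset ℕ).card + ((wnd k w x).image (fun i => (π i).val / w) ∪
          (wnd k w x).image (fun i => (π.symm i).val / w)).card := card_union_le _ _
      _ ≤ 1 + (((wnd k w x).image (fun i => (π i).val / w)).card +
          ((wnd k w x).image (fun i => (π.symm i).val / w)).card) := by
          rw [card_singleton]
          exact Nat.add_le_add_left (card_union_le _ _) _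
      _ ≤ 1 + (w + w) := by
          apply Nat.add_le_add_left
          exact Nat.add_le_add (card_image_le.trans (card_wnd_le hw))
            (card_image_le.trans (card_wnd_le hw))
      _ = 2 * w + 1 := by ring
  · rintro x' (rfl | ⟨i, ⟨h1, h2⟩ | ⟨h1, h2⟩⟩)
    · simp
    · rw [mem_union, mem_union]
      right; left
      rw [mem_image]
      exact ⟨i, by simp [wnd, h1], h2⟩
    · rw [mem_union, mem_union]
      right; right
      rw [mem_image]
      exact ⟨π i, by simp [wnd, h2], by simp [h1]⟩

/-- Choice of pairwise non-adjacent windows. -/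
lemma exists_windows {w q : ℕ} (hw : 0 < w) (hq : (2 * w + 1) * q ≤ k / w) :
    ∃ Q : Finset ℕ, Q.card = q ∧ (∀ x ∈ Q, x < k / w) ∧
      ∀ x ∈ Q, ∀ x' ∈ Q, x ≠ x' → ¬ adj π w x x' := by
  obtain ⟨I, hIs, hI, hcard⟩ := exists_indep (range (k / w)) (adj π w) (2 * w + 1)
    (fun v _ => Or.inl rfl) (fun u v h => adj_symm π h) (fun v _ => by
      obtain ⟨X, hX, hX'⟩ := card_adj π hw v
      exact ⟨X, hX, fun u _ h => hX' u h⟩)
  rw [card_range] at hcard
  have hle : q ≤ I.card := by
    have : (2 * w + 1) * q ≤ (2 * w + 1) * I.card := hq.trans hcard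
    exact Nat.le_of_mul_le_mul_left this (by omega)
  obtain ⟨Q, hQ, hQc⟩ := exists_subset_card_eq hle
  exact ⟨Q, hQc, fun x hx => mem_range.mp (hIs (hQ hx)),
    fun x hx x' hx' hne => hI x (hQ hx) x' (hQ hx') hne⟩

/-- Choice of pairwise non-conflicting values in a window. -/
lemma exists_nonconf {w g x : ℕ} (hw : w = 27 * g) (hg : 0 < g) (hx : x < k / w) :
    ∃ I : Finset (Fin k), I.card = g ∧ I ⊆ wnd k w x ∧
      ∀ i ∈ I, ∀ i' ∈ I, i ≠ i' → ¬ conf π i i' := by
  obtain ⟨I, hIs, hI, hcard⟩ := exists_indep (wnd k w x) (conf π) 27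
    (fun v _ => conf_refl π v) (fun u v h => conf_symm π h) (fun v _ => by
      obtain ⟨X, hX, hX'⟩ := card_conf π v
      exact ⟨X, hX, fun u _ h => hX' u h⟩)
  have h1 := card_wnd_ge (k := k) (by omega : 0 < w) hx
  have hle : g ≤ I.card := by omega
  obtain ⟨I', hI', hI'c⟩ := exists_subset_card_eq hle
  exact ⟨I', hI'c, hI'.trans hIs, fun i hi i' hi' hne => hI i (hI' hi) i' (hI' hi') hne⟩

end windows

end Pool.Agent.H66.SP
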