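import Mathlib

set_option autoImplicit false

open Finset

namespace Pool.Agent.H66.SP

section product

variable {α β ι : Type*} [Fintype α] [DecidableEq α] [Fintype β] [DecidableEq β] [DecidableEq ι]

/-- Averaging over one coordinate. -/
lemma sum_update (a : α) (F : (α → β) → ℝ) :
    ∑ y : α → β, ∑ b : β, F (Function.update y a b) = (Fintype.card β : ℝ) * ∑ y, F y := by
  have h1 : ∑ y : α → β, ∑ b : β, F (Function.update y a b) =
      ∑ p : (α → β) × β, F (Function.update p.1 a p.2) := by
    rw [Fintype.sum_prod_type]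
  let e : (α → β) × β ≃ (α → β) × β :=
    { toFun := fun p => (Function.update p.1 a p.2, p.1 a)
      invFun := fun p => (Function.update p.1 a p.2, p.1 a)
      left_inv := by rintro ⟨y, b⟩; simp
      right_inv := by rintro ⟨y, b⟩; simp }
  have h2 : ∑ p : (α → β) × β, F (Function.update p.1 a p.2) = ∑ p : (α → β) × β, F p.1 :=
    Equiv.sum_comp e (fun p => F p.1)
  rw [h1, h2, Fintype.sum_prod_type]
  simp [Finset.mul_sum]

lemma sum_indep_one (a : α) (Z : Finset β) (G : (α → β) → ℝ)
    (hG : ∀ y b, G (Function.update y a b) = G y) :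
    (Fintype.card β : ℝ) * ∑ y, G y * (if y a ∈ Z then (1 : ℝ) else 0) =
      (Z.card : ℝ) * ∑ y, G y := by
  rw [← sum_update a, Finset.mul_sum]
  apply Finset.sum_congr rfl
  intro y _
  simp only [hG, Function.update_self]
  rw [← Finset.mul_sum]
  simp [mul_comm]

lemma sum_indep (P : Finset α) (Z : α → Finset β) (G : (α → β) → ℝ)
    (hG : ∀ a ∈ P, ∀ y b, G (Function.update y a b) = G y) :
    (Fintype.card β : ℝ) ^ P.card * ∑ y, G y * (if ∀ a ∈ P, y a ∈ Z a then (1 : ℝ) else 0) =
      (∏ a ∈ P, ((Z a).card : ℝ)) * ∑ y, G y := by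
  induction P using Finset.induction_on with
  | empty => simp
  | insert a P ha ih =>
    have ih' := ih (fun b hb => hG b (Finset.mem_insert_of_mem hb))
    rw [Finset.card_insert_of_notMem ha, Finset.prod_insert ha]
    have h1 : ∑ y, G y * (if ∀ a' ∈ insert a P, y a' ∈ Z a' then (1 : ℝ) else 0) =
        ∑ y, (G y * (if ∀ a' ∈ P, y a' ∈ Z a' then (1 : ℝ) else 0)) *
          (if y a ∈ Z a then (1 : ℝ) else 0) := by
      apply Finset.sum_congr rfl
      intro y _
      by_cases h1 : y a ∈ Z a
      · by_cases h2 : ∀ a' ∈ P, y a' ∈ Z a'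
        · simp [h1, h2]
        · simp [h1, h2]
      · simp [h1]
    have h2 := sum_indep_one a (Z a)
      (fun y => G y * (if ∀ a' ∈ P, y a' ∈ Z a' then (1 : ℝ) else 0)) (by
        intro y b
        have h3 : (∀ a' ∈ P, Function.update y a b a' ∈ Z a') ↔ (∀ a' ∈ P, y a' ∈ Z a') := by
          apply forall₂_congr
          intro a' ha'
          rw [Function.update_of_ne]
          rintro rfl
          exact ha ha'
        simp only [h3]
        rw [hG a (Finset.mem_insert_self _ _)])
    rw [h1, pow_succ, mul_assoc, h2]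
    calc (Fintype.card β : ℝ) ^ P.card * (((Z a).card : ℝ) *
          ∑ y, G y * (if ∀ a' ∈ P, y a' ∈ Z a' then (1 : ℝ) else 0))
        = ((Z a).card : ℝ) * ((Fintype.card β : ℝ) ^ P.card *
          ∑ y, G y * (if ∀ a' ∈ P, y a' ∈ Z a' then (1 : ℝ) else 0)) := by ring
      _ = ((Z a).card : ℝ) * ((∏ a ∈ P, ((Z a).card : ℝ)) * ∑ y, G y) := by rw [ih']
      _ = _ := by ring

/-- The general product formula over pairwise disjoint coordinate sets. -/
lemma sum_prod (hβ : 0 < Fintype.card β) (T : Finset ι) (P : ι → Finset α)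
    (Z : ι → α → Finset β) (θ p : ℝ)
    (hdisj : ∀ t ∈ T, ∀ t' ∈ T, t ≠ t' → Disjoint (P t) (P t'))
    (hp : ∀ t ∈ T, (∏ a ∈ P t, ((Z t a).card : ℝ)) = p * (Fintype.card β : ℝ) ^ (P t).card) :
    ∑ y : α → β, ∏ t ∈ T, (1 + θ * (if ∀ a ∈ P t, y a ∈ Z t a then (1 : ℝ) else 0)) =
      (Fintype.card (α → β) : ℝ) * (1 + θ * p) ^ T.card := by
  induction T using Finset.induction_on with
  | empty => simp
  | insert t T ht ih =>
    have ih' := ih (fun a ha b hb => hdisj a (Finset.mem_insert_of_mem ha) b
      (Finset.mem_insert_of_mem hb)) (fun a ha => hp a (Finset.mem_insert_of_mem ha))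
    set G : (α → β) → ℝ := fun y =>
      ∏ t ∈ T, (1 + θ * (if ∀ a ∈ P t, y a ∈ Z t a then (1 : ℝ) else 0)) with hGdef
    have hG : ∀ a ∈ P t, ∀ y b, G (Function.update y a b) = G y := by
      intro a ha y b
      apply Finset.prod_congr rfl
      intro t' ht'
      have hne : t ≠ t' := by
        rintro rfl
        exact ht ht'
      have hd := hdisj t (Finset.mem_insert_self _ _) t' (Finset.mem_insert_of_mem ht') hne
      have h3 : (∀ a' ∈ P t', Function.update y a b a' ∈ Z t' a') ↔
          (∀ a' ∈ P t', y a' ∈ Z t' a') := by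
        apply forall₂_congr
        intro a' ha'
        rw [Function.update_of_ne]
        rintro rfl
        exact Finset.disjoint_left.mp hd ha ha'
      simp only [h3]
    have hcard : (0 : ℝ) < (Fintype.card β : ℝ) ^ (P t).card := by positivity
    have h1 := sum_indep (P t) (Z t) G hG
    rw [hp t (Finset.mem_insert_self _ _)] at h1
    have h2 : ∑ y, G y * (if ∀ a ∈ P t, y a ∈ Z t a then (1 : ℝ) else 0) = p * ∑ y, G y := by
      apply mul_left_cancel₀ hcard.ne'
      rw [h1]
      ring
    have h3 : ∑ y : α → β, ∏ t' ∈ insert t T,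
        (1 + θ * (if ∀ a ∈ P t', y a ∈ Z t' a then (1 : ℝ) else 0)) =
        ∑ y, G y + θ * ∑ y, G y * (if ∀ a ∈ P t, y a ∈ Z t a then (1 : ℝ) else 0) := by
      rw [Finset.mul_sum, ← Finset.sum_add_distrib]
      apply Finset.sum_congr rfl
      intro y _
      rw [Finset.prod_insert ht]
      simp only [hGdef]
      ring
    rw [h3, h2, Finset.card_insert_of_notMem ht, pow_succ, ih']
    ring

end product

end Pool.Agent.H66.SP
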