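import Mathlib
import Pool.Agent.H66.SP.Prob

set_option autoImplicit false

open Finset

namespace Pool.Agent.H66.SP

/-- The shifts: a Sidon set. -/
def sh (m a : ℕ) : ℕ := a * (2 * m ^ 2 + 1) + a ^ 2

lemma sh_le {m a : ℕ} (ha : a < m) : sh m a ≤ 4 * m ^ 3 := by
  unfold sh
  have h1 : a ^ 2 ≤ m ^ 2 := Nat.pow_le_pow_left ha.le 2
  have h2 : a + 1 ≤ m := ha
  have h3 : 1 ≤ m := by omega
  have h4 : m ^ 2 ≤ m ^ 3 := Nat.pow_le_pow_right h3 (by norm_num)
  have h5 : m ≤ m ^ 3 := by
    calc m = m ^ 1 := (pow_one m).symm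
      _ ≤ m ^ 3 := Nat.pow_le_pow_right h3 (by norm_num)
  calc a * (2 * m ^ 2 + 1) + a ^ 2 ≤ m * (2 * m ^ 2 + 1) + m ^ 2 := by
        apply Nat.add_le_add _ h1
        exact Nat.mul_le_mul_right _ ha.le
    _ = 2 * m ^ 3 + m + m ^ 2 := by ring
    _ ≤ 4 * m ^ 3 := by omega

/-- The Sidon property of the shifts. -/
lemma sidon {m a b c d : ℕ} (ha : a < m) (hb : b < m) (hc : c < m) (hd : d < m)
    (h : sh m a + sh m d = sh m c + sh m b) (hab : a ≠ b) : a = c ∧ b = d := by
  unfold sh at h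
  have hm1 : ∀ x, x < m → x ^ 2 ≤ m ^ 2 - 1 := by
    intro x hx
    have : x ^ 2 < m ^ 2 := Nat.pow_lt_pow_left hx (by norm_num)
    omega
  have ha2 := hm1 a ha
  have hb2 := hm1 b hb
  have hc2 := hm1 c hc
  have hd2 := hm1 d hd
  have hmpos : 0 < m ^ 2 := by
    have : 0 < m := by omega
    positivity
  set B := 2 * m ^ 2 + 1 with hB
  have h1 : (a + d) * B + (a ^ 2 + d ^ 2) = (c + b) * B + (c ^ 2 + b ^ 2) := by
    calc (a + d) * B + (a ^ 2 + d ^ 2) = a * B + a ^ 2 + (d * B + d ^ 2) := by ring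
      _ = c * B + c ^ 2 + (b * B + b ^ 2) := h
      _ = _ := by ring
  have hlt1 : a ^ 2 + d ^ 2 < B := by omega
  have hlt2 : c ^ 2 + b ^ 2 < B := by omega
  have hBpos : 0 < B := by omega
  have hq : a + d = c + b := by
    have e1 : ((a + d) * B + (a ^ 2 + d ^ 2)) / B = a + d := by
      rw [Nat.add_comm, Nat.add_mul_div_right _ _ hBpos, Nat.div_eq_of_lt hlt1, Nat.zero_add]
    have e2 : ((c + b) * B + (c ^ 2 + b ^ 2)) / B = c + b := by
      rw [Nat.add_comm, Nat.add_mul_div_right _ _ hBpos, Nat.div_eq_of_lt hlt2, Nat.zero_add]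
    rw [← e1, ← e2, h1]
  have hr : a ^ 2 + d ^ 2 = c ^ 2 + b ^ 2 := by
    rw [hq] at h1
    omega
  have hqz : (a : ℤ) - b = c - d := by
    have : (a : ℤ) + d = c + b := by exact_mod_cast hq
    linarith
  have hrz : (a : ℤ) ^ 2 + d ^ 2 = c ^ 2 + b ^ 2 := by exact_mod_cast hr
  have hne : (a : ℤ) - b ≠ 0 := by
    intro h0
    apply hab
    have : (a : ℤ) = b := by linarith
    exact_mod_cast this
  have hprod : ((a : ℤ) - b) * (a + b) = (a - b) * (c + d) := by
    have : ((a : ℤ) - b) * (a + b) = (c - d) * (c + d) := by nlinarith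
    rw [this, hqz]
  have hsum := mul_left_cancel₀ hne hprod
  constructor
  · have : (a : ℤ) = c := by linarith
    exact_mod_cast this
  · have : (b : ℤ) = d := by linarith
    exact_mod_cast this

/-- Extension of a finite assignment by `0`. -/
def ext {N : ℕ} [NeZero N] (R' : ℕ) (ω : Fin R' → Fin N) (a : ℕ) : Fin N :=
  if h : a < R' then ω ⟨a, h⟩ else 0

lemma bad_bound {N : ℕ} [NeZero N] {R R' m n : ℕ} {η : ℝ} (hη : 0 < η) (hη1 : η ≤ 1)
    (hR' : R + 4 * m ^ 3 ≤ R') (hm : 2 * (n : ℝ) ^ 2 ≤ η * m) (D : Finset ℕ)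
    (hD : ∀ x ∈ D, x < R) (hDn : D.card ≤ n) (y : ℕ → Fin N) :
    (((Finset.univ : Finset (Fin R' → Fin N)).filter (fun ω =>
      ((1 / (N : ℝ)) ^ D.card + η) * m <
        (((range m).filter (fun a => ∀ x ∈ D, ext R' ω (x + sh m a) = y x)).card : ℝ))).card : ℝ)
      ≤ (N : ℝ) ^ R' * Real.exp (-(η ^ 2 / 16) * m) := by
  classical
  have hN : (0 : ℝ) < N := by
    have : 0 < N := Nat.pos_of_ne_zero (NeZero.ne N)
    exact_mod_cast this
  set p : ℝ := (1 / (N : ℝ)) ^ D.card with hp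
  have hp0 : 0 ≤ p := by positivity
  have hp1 : p ≤ 1 := by
    apply pow_le_one₀ (by positivity)
    rw [div_le_one hN]
    have : 1 ≤ N := Nat.pos_of_ne_zero (NeZero.ne N)
    exact_mod_cast this
  -- the conflicting shifts
  set Bd : Finset ℕ := (range m).filter (fun a => ∃ b ∈ range m, b ≠ a ∧ ∃ x ∈ D, ∃ x' ∈ D,
    x + sh m a = x' + sh m b) with hBd
  have hBdcard : Bd.card ≤ n ^ 2 := by
    have hch : ∀ a ∈ Bd, ∃ q ∈ D ×ˢ D, ∃ b ∈ range m, b ≠ a ∧ q.1 + sh m a = q.2 + sh m b := by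
      intro a ha
      rw [hBd, mem_filter] at ha
      obtain ⟨_, b, hb, hba, x, hx, x', hx', he⟩ := ha
      exact ⟨(x, x'), mem_product.mpr ⟨hx, hx'⟩, b, hb, hba, he⟩
    choose! q hqD hq using hch
    have h1 : Bd.card ≤ (D ×ˢ D).card := by
      apply Finset.card_le_card_of_injOn q
      · intro a ha
        exact hqD a ha
      · intro a ha a' ha' haa'
        obtain ⟨b, hb, hba, he⟩ := hq a ha
        obtain ⟨b', hb', hba', he'⟩ := hq a' ha'
        rw [haa'] at he
        have ham : a < m := by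
          have := (mem_filter.mp ha).1
          exact mem_range.mp this
        have ham' : a' < m := by
          have := (mem_filter.mp ha').1
          exact mem_range.mp this
        have hs : sh m a + sh m b' = sh m a' + sh m b := by omega
        exact (sidon ham (mem_range.mp hb) ham' (mem_range.mp hb') hs hba.symm).1
    rw [card_product] at h1
    calc Bd.card ≤ D.card * D.card := h1
      _ ≤ n * n := Nat.mul_le_mul hDn hDn
      _ = n ^ 2 := by ring
  set A : Finset ℕ := range m \ Bd with hA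
  have hAm : ∀ a ∈ A, a < m := fun a ha => mem_range.mp (mem_sdiff.mp ha).1
  have hlt : ∀ a ∈ A, ∀ z ∈ D.image (fun x => x + sh m a), z < R' := by
    intro a ha z hz
    obtain ⟨x, hx, rfl⟩ := mem_image.mp hz
    have h1 := hD x hx
    have h2 := sh_le (hAm a ha)
    omega
  let P : ℕ → Finset (Fin R') := fun a =>
    if ha : a ∈ A then (D.image (fun x => x + sh m a)).attachFin (hlt a ha) else ∅
  let Z : ℕ → Fin R' → Finset (Fin N) := fun a z => {y (z.val - sh m a)}
  have hPcard : ∀ a ∈ A, (P a).card = D.card := by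
    intro a ha
    simp only [P, ha, dif_pos, card_attachFin]
    apply card_image_of_injective
    intro x x' hxx'
    simpa using hxx'
  have hPmem : ∀ a ∈ A, ∀ z : Fin R', z ∈ P a ↔ ∃ x ∈ D, x + sh m a = z.val := by
    intro a ha z
    simp only [P, ha, dif_pos, mem_attachFin, mem_image]
  have hev : ∀ a ∈ A, ∀ ω : Fin R' → Fin N,
      (∀ z ∈ P a, ω z ∈ Z a z) ↔ (∀ x ∈ D, ext R' ω (x + sh m a) = y x) := by
    intro a ha ω
    constructor
    · intro h x hx
      have hxlt : x + sh m a < R' := hlt a ha _ (mem_image_of_mem _ hx)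
      have h1 := h ⟨x + sh m a, hxlt⟩ ((hPmem a ha _).mpr ⟨x, hx, rfl⟩)
      simp only [Z, mem_singleton, Nat.add_sub_cancel] at h1
      simp only [ext, hxlt, dif_pos]
      exact h1
    · intro h z hz
      obtain ⟨x, hx, hxz⟩ := (hPmem a ha z).mp hz
      have h1 := h x hx
      have hxlt : x + sh m a < R' := by
        rw [hxz]
        exact z.isLt
      simp only [ext, hxlt, dif_pos] at h1
      simp only [Z, mem_singleton]
      have h2 : (⟨x + sh m a, hxlt⟩ : Fin R') = z := Fin.ext hxz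
      rw [h2] at h1
      rw [h1, ← hxz, Nat.add_sub_cancel]
  have hdisj : ∀ a ∈ A, ∀ b ∈ A, a ≠ b → Disjoint (P a) (P b) := by
    intro a ha b hb hab
    rw [Finset.disjoint_left]
    intro z hza hzb
    obtain ⟨x, hx, hxz⟩ := (hPmem a ha z).mp hza
    obtain ⟨x', hx', hxz'⟩ := (hPmem b hb z).mp hzb
    have : a ∈ Bd := by
      rw [hBd, mem_filter]
      exact ⟨mem_range.mpr (hAm a ha), b, mem_range.mpr (hAm b hb), hab.symm, x, hx, x', hx',
        by omega⟩
    exact (mem_sdiff.mp ha).2 this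
  have hprod : ∀ a ∈ A, (∏ z ∈ P a, ((Z a z).card : ℝ)) =
      p * (Fintype.card (Fin N) : ℝ) ^ (P a).card := by
    intro a ha
    simp only [Z, card_singleton, Nat.cast_one, prod_const_one, Fintype.card_fin]
    rw [hPcard a ha, hp, ← mul_pow, one_div, inv_mul_cancel₀ hN.ne', one_pow]
  -- the parameters of the exponential moment
  set θ : ℝ := η / 4 with hθ
  set b : ℝ := Real.exp θ - 1 with hb
  have hθ0 : 0 < θ := by positivity
  have hθ1 : |θ| ≤ 1 := by
    rw [abs_of_pos hθ0]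
    linarith
  have hb1 : b ≤ θ + θ ^ 2 := by
    have h := Real.abs_exp_sub_one_sub_id_le hθ1
    have := (abs_le.mp h).2
    rw [hb]
    linarith
  have hb0 : 0 ≤ b := by
    have := Real.add_one_le_exp θ
    rw [hb]
    linarith
  have hsum := sum_prod (α := Fin R') (β := Fin N) (by
    rw [Fintype.card_fin]; exact Nat.pos_of_ne_zero (NeZero.ne N)) A P Z b p hdisj hprod
  -- lower bound of the product on the bad set
  have hprodeq : ∀ ω : Fin R' → Fin N,
      ∏ a ∈ A, (1 + b * (if ∀ z ∈ P a, ω z ∈ Z a z then (1 : ℝ) else 0)) =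
        Real.exp (θ * ((A.filter (fun a => ∀ x ∈ D, ext R' ω (x + sh m a) = y x)).card : ℝ)) := by
    intro ω
    have h1 : ∀ a ∈ A, (1 + b * (if ∀ z ∈ P a, ω z ∈ Z a z then (1 : ℝ) else 0)) =
        if (∀ x ∈ D, ext R' ω (x + sh m a) = y x) then Real.exp θ else 1 := by
      intro a ha
      by_cases h : ∀ x ∈ D, ext R' ω (x + sh m a) = y x
      · rw [if_pos ((hev a ha ω).mpr h), if_pos h, hb]
        ring
      · rw [if_neg (fun h' => h ((hev a ha ω).mp h')), if_neg h]
        ring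
    rw [prod_congr rfl h1, prod_ite, prod_const, prod_const_one, mul_one, ← Real.exp_nat_mul,
      mul_comm]
  have hnonneg : ∀ ω : Fin R' → Fin N,
      0 ≤ ∏ a ∈ A, (1 + b * (if ∀ z ∈ P a, ω z ∈ Z a z then (1 : ℝ) else 0)) := by
    intro ω
    rw [hprodeq]
    exact (Real.exp_pos _).le
  set Bad := (Finset.univ : Finset (Fin R' → Fin N)).filter (fun ω =>
      (p + η) * m <
        (((range m).filter (fun a => ∀ x ∈ D, ext R' ω (x + sh m a) = y x)).card : ℝ)) with hBad
  have hlow : ∀ ω ∈ Bad, Real.exp (θ * ((p + η / 2) * m)) ≤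
      ∏ a ∈ A, (1 + b * (if ∀ z ∈ P a, ω z ∈ Z a z then (1 : ℝ) else 0)) := by
    intro ω hω
    rw [hprodeq]
    apply Real.exp_le_exp.mpr
    apply mul_le_mul_of_nonneg_left _ hθ0.le
    have h1 := (mem_filter.mp hω).2
    have h2 : ((range m).filter (fun a => ∀ x ∈ D, ext R' ω (x + sh m a) = y x)).card ≤
        (A.filter (fun a => ∀ x ∈ D, ext R' ω (x + sh m a) = y x)).card + Bd.card := by
      rw [← card_union_add_card_inter]
      refine le_trans ?_ (Nat.le_add_right _ _)
      apply card_le_card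
      intro a ha
      rw [mem_filter] at ha
      rw [mem_union, mem_filter, hA, mem_sdiff]
      by_cases haB : a ∈ Bd
      · exact Or.inr haB
      · exact Or.inl ⟨⟨ha.1, haB⟩, ha.2⟩
    have h3 : (((range m).filter (fun a => ∀ x ∈ D, ext R' ω (x + sh m a) = y x)).card : ℝ) ≤
        ((A.filter (fun a => ∀ x ∈ D, ext R' ω (x + sh m a) = y x)).card : ℝ) + (n : ℝ) ^ 2 := by
      have : ((range m).filter (fun a => ∀ x ∈ D, ext R' ω (x + sh m a) = y x)).card ≤
        (A.filter (fun a => ∀ x ∈ D, ext R' ω (x + sh m a) = y x)).card + n ^ 2 :=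
        h2.trans (Nat.add_le_add_left hBdcard _)
      exact_mod_cast this
    have h4 : (p + η) * m = (p + η / 2) * m + η * m / 2 := by ring
    linarith
  have hmarkov : (Bad.card : ℝ) * Real.exp (θ * ((p + η / 2) * m)) ≤
      (N : ℝ) ^ R' * (1 + b * p) ^ A.card := by
    calc (Bad.card : ℝ) * Real.exp (θ * ((p + η / 2) * m))
        = ∑ ω ∈ Bad, Real.exp (θ * ((p + η / 2) * m)) := by rw [sum_const, nsmul_eq_mul]
      _ ≤ ∑ ω ∈ Bad, ∏ a ∈ A, (1 + b * (if ∀ z ∈ P a, ω z ∈ Z a z then (1 : ℝ) else 0)) :=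
          sum_le_sum hlow
      _ ≤ ∑ ω : Fin R' → Fin N,
          ∏ a ∈ A, (1 + b * (if ∀ z ∈ P a, ω z ∈ Z a z then (1 : ℝ) else 0)) :=
          sum_le_sum_of_subset_of_nonneg (filter_subset _ _) (fun ω _ _ => hnonneg ω)
      _ = (Fintype.card (Fin R' → Fin N) : ℝ) * (1 + b * p) ^ A.card := by
          rw [← hsum]
          refine sum_congr rfl (fun ω _ => prod_congr rfl (fun a _ => ?_))
          congr
      _ = (N : ℝ) ^ R' * (1 + b * p) ^ A.card := by
          rw [Fintype.card_fun, Fintype.card_fin, Fintype.card_fin]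
          push_cast
          ring
  have hAcard : A.card ≤ m := by
    have := card_le_card (sdiff_subset : range m \ Bd ⊆ range m)
    rwa [card_range] at this
  have hbp : (0 : ℝ) ≤ b * p := by positivity
  have hup : (1 + b * p) ^ A.card ≤ Real.exp (b * p * m) := by
    calc (1 + b * p) ^ A.card ≤ (1 + b * p) ^ m :=
          pow_le_pow_right₀ (by linarith) hAcard
      _ ≤ (Real.exp (b * p)) ^ m := by
          apply pow_le_pow_left₀ (by linarith)
          have := Real.add_one_le_exp (b * p)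
          linarith
      _ = Real.exp (b * p * m) := by
          rw [← Real.exp_nat_mul]
          ring_nf
  have hpos := Real.exp_pos (θ * ((p + η / 2) * m))
  have hfin : (Bad.card : ℝ) * Real.exp (θ * ((p + η / 2) * m)) ≤
      ((N : ℝ) ^ R' * Real.exp (-(η ^ 2 / 16) * m)) * Real.exp (θ * ((p + η / 2) * m)) := by
    refine hmarkov.trans ?_
    rw [mul_assoc, ← Real.exp_add]
    apply mul_le_mul_of_nonneg_left _ (by positivity)
    refine hup.trans ?_
    apply Real.exp_le_exp.mpr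
    have hm0 : (0 : ℝ) ≤ m := Nat.cast_nonneg m
    have h1 : b * p ≤ θ * p + θ ^ 2 := by
      calc b * p ≤ (θ + θ ^ 2) * p := mul_le_mul_of_nonneg_right hb1 hp0
        _ = θ * p + θ ^ 2 * p := by ring
        _ ≤ θ * p + θ ^ 2 * 1 := by
            have : θ ^ 2 * p ≤ θ ^ 2 * 1 := mul_le_mul_of_nonneg_left hp1 (by positivity)
            linarith
        _ = _ := by ring
    have h2 : -(η ^ 2 / 16) * m + θ * ((p + η / 2) * m) = (θ * p + θ ^ 2) * m := by
      rw [hθ]
      ring
    rw [h2]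
    exact mul_le_mul_of_nonneg_right h1 hm0
  exact le_of_mul_le_mul_right hfin hpos

lemma eventually_small (N n : ℕ) {c : ℝ} (hc : 0 < c) :
    ∃ m0 : ℕ, ∀ m : ℕ, m0 ≤ m → ((100 * (m : ℝ) ^ 4 * N) ^ n) * Real.exp (-c * m) < 1 := by
  have h1 := Real.tendsto_pow_mul_exp_neg_atTop_nhds_zero (4 * n)
  have h2 : Filter.Tendsto (fun m : ℕ => c * (m : ℝ)) Filter.atTop Filter.atTop :=
    tendsto_natCast_atTop_atTop.const_mul_atTop hc
  have h3 := (h1.comp h2).const_mul ((100 * (N : ℝ)) ^ n * (1 / c) ^ (4 * n))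
  rw [mul_zero] at h3
  have h4 := (h3.eventually (gt_mem_nhds (show (0 : ℝ) < 1 by norm_num)))
  obtain ⟨m0, hm0⟩ := Filter.eventually_atTop.mp h4
  refine ⟨m0, fun m hm => ?_⟩
  have h5 := hm0 m hm
  simp only [Function.comp] at h5
  have h6 : (100 * (N : ℝ)) ^ n * (1 / c) ^ (4 * n) * ((c * (m : ℝ)) ^ (4 * n) *
      Real.exp (-(c * (m : ℝ)))) = ((100 * (m : ℝ) ^ 4 * N) ^ n) * Real.exp (-c * m) := by
    have e1 : (1 / c) ^ (4 * n) * (c * (m : ℝ)) ^ (4 * n) = (m : ℝ) ^ (4 * n) := by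
      rw [← mul_pow, one_div, inv_mul_cancel_left₀ hc.ne']
    have e2 : (100 * (m : ℝ) ^ 4 * N) ^ n = (100 * (N : ℝ)) ^ n * (m : ℝ) ^ (4 * n) := by
      rw [pow_mul, ← mul_pow]
      ring_nf
    rw [e2, ← e1, neg_mul]
    ring
  linarith

/-- A function `U` all of whose bounded patterns with gaps are almost uniformly distributed under
the shifts `sh m a`, `a < m`. -/
theorem exists_gram (N n : ℕ) [NeZero N] {η : ℝ} (hη : 0 < η) (hη1 : η ≤ 1) :
    ∃ m0 : ℕ, ∀ m : ℕ, m0 ≤ m → ∃ U : ℕ → Fin N, ∀ D : Finset ℕ, (∀ x ∈ D, x < 100 * m ^ 4) →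
      D.card ≤ n → ∀ y : ℕ → Fin N,
      (((range m).filter (fun a => ∀ x ∈ D, U (x + sh m a) = y x)).card : ℝ) ≤
        ((1 / (N : ℝ)) ^ D.card + η) * m := by
  classical
  obtain ⟨m1, hm1⟩ := eventually_small N n (c := η ^ 2 / 16) (by positivity)
  obtain ⟨m2, hm2⟩ := exists_nat_ge (2 * (n : ℝ) ^ 2 / η)
  refine ⟨max m1 m2, fun m hm => ?_⟩
  have hmm1 : m1 ≤ m := le_trans (le_max_left _ _) hm
  have hmm2 : m2 ≤ m := le_trans (le_max_right _ _) hm
  have hmη : 2 * (n : ℝ) ^ 2 ≤ η * m := by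
    have h1 : 2 * (n : ℝ) ^ 2 / η ≤ m := hm2.trans (by exact_mod_cast hmm2)
    rw [div_le_iff₀ hη] at h1
    linarith
  set R := 100 * m ^ 4 with hR
  set R' := R + 4 * m ^ 3 with hR'
  let Dc : (Fin n → Fin R × Fin N) → Finset ℕ := fun c => univ.image (fun i => ((c i).1 : ℕ))
  let yc : (Fin n → Fin R × Fin N) → ℕ → Fin N := fun c x =>
    if h : ∃ i, ((c i).1 : ℕ) = x then (c h.choose).2 else 0
  let Bad : (Fin n → Fin R × Fin N) → Finset (Fin R' → Fin N) := fun c => univ.filter (fun ω =>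
      ((1 / (N : ℝ)) ^ (Dc c).card + η) * m <
        (((range m).filter (fun a => ∀ x ∈ Dc c, ext R' ω (x + sh m a) = yc c x)).card : ℝ))
  have hBad : ∀ c, ((Bad c).card : ℝ) ≤ (N : ℝ) ^ R' * Real.exp (-(η ^ 2 / 16) * m) := by
    intro c
    apply bad_bound hη hη1 (R := R) (n := n) le_rfl hmη
    · intro x hx
      obtain ⟨i, -, rfl⟩ := mem_image.mp hx
      exact (c i).1.isLt
    · calc (Dc c).card ≤ (univ : Finset (Fin n)).card := card_image_le
        _ = n := by rw [card_univ, Fintype.card_fin]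
  have hN : (0 : ℝ) < N := by
    have : 0 < N := Nat.pos_of_ne_zero (NeZero.ne N)
    exact_mod_cast this
  have hunion : ((univ.biUnion Bad).card : ℝ) < (Fintype.card (Fin R' → Fin N) : ℝ) := by
    calc ((univ.biUnion Bad).card : ℝ) ≤ ∑ c, ((Bad c).card : ℝ) := by
          exact_mod_cast card_biUnion_le
      _ ≤ ∑ c : (Fin n → Fin R × Fin N), (N : ℝ) ^ R' * Real.exp (-(η ^ 2 / 16) * m) :=
          sum_le_sum (fun c _ => hBad c)
      _ = ((R : ℝ) * N) ^ n * ((N : ℝ) ^ R' * Real.exp (-(η ^ 2 / 16) * m)) := by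
          rw [sum_const, card_univ, Fintype.card_fun, Fintype.card_prod, Fintype.card_fin,
            Fintype.card_fin, Fintype.card_fin, nsmul_eq_mul]
          push_cast
          ring
      _ = (((100 * (m : ℝ) ^ 4 * N) ^ n) * Real.exp (-(η ^ 2 / 16) * m)) * (N : ℝ) ^ R' := by
          rw [hR]
          push_cast
          ring
      _ < 1 * (N : ℝ) ^ R' := by
          apply mul_lt_mul_of_pos_right (hm1 m hmm1) (by positivity)
      _ = (Fintype.card (Fin R' → Fin N) : ℝ) := by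
          rw [Fintype.card_fun, Fintype.card_fin, Fintype.card_fin]
          push_cast
          ring
  obtain ⟨ω, hω⟩ : ∃ ω : Fin R' → Fin N, ω ∉ univ.biUnion Bad := by
    by_contra hcon
    push Not at hcon
    have : univ.biUnion Bad = univ := eq_univ_of_forall hcon
    rw [this, card_univ] at hunion
    exact lt_irrefl _ hunion
  refine ⟨ext R' ω, fun D hD hDn y => ?_⟩
  rcases D.eq_empty_or_nonempty with rfl | hne
  · simp only [notMem_empty, IsEmpty.forall_iff, implies_true, filter_true, card_range, card_empty,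
      pow_zero]
    have : (0 : ℝ) ≤ m := Nat.cast_nonneg m
    nlinarith
  · have : Nonempty D := ⟨⟨hne.choose, hne.choose_spec⟩⟩
    obtain ⟨emb⟩ : Nonempty (D ↪ Fin n) := Function.Embedding.nonempty_of_card_le (by
      rw [Fintype.card_coe, Fintype.card_fin]
      exact hDn)
    have hsurj := Function.invFun_surjective emb.injective
    set f : Fin n → D := Function.invFun emb with hf
    let c : Fin n → Fin R × Fin N := fun i => (⟨(f i : ℕ), hD _ (f i).2⟩, y (f i))
    have hDc : Dc c = D := by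
      ext x
      simp only [Dc, c, mem_image, mem_univ, true_and]
      constructor
      · rintro ⟨i, rfl⟩
        exact (f i).2
      · intro hx
        obtain ⟨i, hi⟩ := hsurj ⟨x, hx⟩
        exact ⟨i, by rw [hi]⟩
    have hyc : ∀ x ∈ D, yc c x = y x := by
      intro x hx
      have hex : ∃ i, ((c i).1 : ℕ) = x := by
        obtain ⟨i, hi⟩ := hsurj ⟨x, hx⟩
        exact ⟨i, by simp only [c]; rw [hi]⟩
      simp only [yc]
      rw [dif_pos hex]
      have h2 := hex.choose_spec
      simp only [c] at h2 ⊢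
      rw [h2]
    have hnot : ω ∉ Bad c := fun h => hω (mem_biUnion.mpr ⟨c, mem_univ _, h⟩)
    simp only [Bad, mem_filter, mem_univ, true_and, not_lt] at hnot
    rw [hDc] at hnot
    refine le_trans (le_of_eq ?_) hnot
    congr 2
    apply filter_congr
    intro a _
    constructor
    · intro h x hx
      rw [h x hx, hyc x hx]
    · intro h x hx
      rw [h x hx, hyc x hx]

end Pool.Agent.H66.SP
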