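import Mathlib
import Pool.Agent.H66.SP.Prob

set_option autoImplicit false

open Finset

namespace Pool.Agent.H66.SP

/-- Number of steps that are (weak) descents. -/
def cost {α σ : Type*} {N : ℕ} (S : Finset σ) (a b : σ → α) (y : α → Fin N) : ℕ :=
  (S.filter (fun i => y (b i) ≤ y (a i))).card

/-- Number of steps that are ties. -/
def tie {α σ : Type*} {N : ℕ} (S : Finset σ) (a b : σ → α) (y : α → Fin N) : ℕ :=
  (S.filter (fun i => y (a i) = y (b i))).card

section

variable {α σ ι : Type*} [Fintype α] [DecidableEq α] [DecidableEq ι] {N : ℕ} [NeZero N]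

omit [Fintype α] [DecidableEq α] [NeZero N] in
lemma cost_rev (S : Finset σ) (a b : σ → α) (y : α → Fin N) :
    cost S a b (fun x => Fin.rev (y x)) + cost S a b y = S.card + tie S a b y := by
  classical
  unfold cost tie
  have h1 : (S.filter (fun i => Fin.rev (y (b i)) ≤ Fin.rev (y (a i)))) =
      S.filter (fun i => y (a i) ≤ y (b i)) := by
    apply filter_congr
    intro i _
    rw [Fin.rev_le_rev]
  rw [h1]
  have h2 := card_union_add_card_inter (S.filter (fun i => y (a i) ≤ y (b i)))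
    (S.filter (fun i => y (b i) ≤ y (a i)))
  rw [← h2]
  congr 1
  · congr 1
    ext i
    simp only [mem_union, mem_filter]
    constructor
    · rintro (h | h) <;> exact h.1
    · intro h
      rcases le_total (y (a i)) (y (b i)) with h' | h'
      · exact Or.inl ⟨h, h'⟩
      · exact Or.inr ⟨h, h'⟩
  · congr 1
    ext i
    simp only [mem_inter, mem_filter]
    constructor
    · rintro ⟨⟨h, h1⟩, -, h2⟩
      exact ⟨h, le_antisymm h1 h2⟩
    · rintro ⟨h, h1⟩
      exact ⟨⟨h, h1.le⟩, h, h1.ge⟩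

lemma sum_tie_one (a b : α) (hab : a ≠ b) :
    ∑ y : α → Fin N, (if y a = y b then (1 : ℝ) else 0) =
      (Fintype.card (α → Fin N) : ℝ) / N := by
  have hN : (N : ℝ) ≠ 0 := by
    have : N ≠ 0 := NeZero.ne N
    exact_mod_cast this
  have h := sum_update (β := Fin N) a (fun y : α → Fin N => (if y a = y b then (1 : ℝ) else 0))
  rw [Fintype.card_fin] at h
  rw [eq_div_iff hN, mul_comm, ← h]
  have h2 : ∀ y : α → Fin N, ∑ c : Fin N,
      (if Function.update y a c a = Function.update y a c b then (1 : ℝ) else 0) = 1 := by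
    intro y
    simp only [Function.update_self, Function.update_of_ne hab.symm]
    simp
  rw [sum_congr rfl (fun y _ => h2 y)]
  simp

lemma sum_tie (S : Finset σ) (a b : σ → α) (hab : ∀ i ∈ S, a i ≠ b i) :
    ∑ y : α → Fin N, ((tie S a b y : ℕ) : ℝ) =
      (S.card : ℝ) * ((Fintype.card (α → Fin N) : ℝ) / N) := by
  classical
  have h1 : ∀ y : α → Fin N, ((tie S a b y : ℕ) : ℝ) =
      ∑ i ∈ S, (if y (a i) = y (b i) then (1 : ℝ) else 0) := by
    intro y
    unfold tie
    rw [card_filter]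
    push_cast
    rfl
  rw [sum_congr rfl (fun y _ => h1 y), sum_comm, sum_congr rfl (fun i hi =>
    sum_tie_one (N := N) (a i) (b i) (hab i hi)), sum_const, nsmul_eq_mul]

/-- The local estimate: the expected minimum over the states of the number of weak descents. -/
theorem local_bound (J : Finset ℕ) (hJ : J.Nonempty) (S : Finset σ) (A B : ℕ → σ → α)
    (hAB : ∀ j ∈ J, ∀ i ∈ S, A j i ≠ B j i) (T : Finset ι) (P : ι → Finset α)
    (Z : ι → α → Finset (Fin N)) (p : ℝ)
    (hdisj : ∀ t ∈ T, ∀ t' ∈ T, t ≠ t' → Disjoint (P t) (P t'))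
    (hp : ∀ t ∈ T, (∏ a ∈ P t, ((Z t a).card : ℝ)) = p * (N : ℝ) ^ (P t).card)
    (hev : ∀ t ∈ T, ∀ y : α → Fin N, (∀ a ∈ P t, y a ∈ Z t a) →
      ∃ j ∈ J, ∃ j' ∈ J, cost S (A j) (B j) y ≠ cost S (A j') (B j') y) :
    ∑ y : α → Fin N, ((J.inf' hJ (fun j => cost S (A j) (B j) y) : ℕ) : ℝ) ≤
      (Fintype.card (α → Fin N) : ℝ) * ((S.card : ℝ) / 2 - (1 - (1 - p) ^ T.card) / 2 +
        (J.card : ℝ) * S.card / (2 * N)) := by
  classical
  set φ : (α → Fin N) → ℕ := fun y => J.inf' hJ (fun j => cost S (A j) (B j) y) with hφ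
  set TIE : (α → Fin N) → ℝ := fun y => ∑ j ∈ J, ((tie S (A j) (B j) y : ℕ) : ℝ) with hTIE
  set NC : (α → Fin N) → Prop := fun y =>
    ∃ j ∈ J, ∃ j' ∈ J, cost S (A j) (B j) y ≠ cost S (A j') (B j') y with hNC
  -- reflection
  have hrev : ∑ y : α → Fin N, ((φ y : ℕ) : ℝ) =
      ∑ y : α → Fin N, ((φ (fun x => Fin.rev (y x)) : ℕ) : ℝ) := by
    let e : (α → Fin N) ≃ (α → Fin N) :=
      { toFun := fun y x => Fin.rev (y x)
        invFun := fun y x => Fin.rev (y x)
        left_inv := by intro y; funext x; simp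
        right_inv := by intro y; funext x; simp }
    exact (Equiv.sum_comp e (fun y => ((φ y : ℕ) : ℝ))).symm
  have hpt : ∀ y : α → Fin N, ((φ y : ℕ) : ℝ) + ((φ (fun x => Fin.rev (y x)) : ℕ) : ℝ) ≤
      (S.card : ℝ) - (if NC y then (1 : ℝ) else 0) + TIE y := by
    intro y
    obtain ⟨j1, hj1, hmax⟩ := exists_max_image J (fun j => cost S (A j) (B j) y) hJ
    have h1 : φ (fun x => Fin.rev (y x)) ≤ cost S (A j1) (B j1) (fun x => Fin.rev (y x)) :=
      inf'_le _ hj1
    have h2 := cost_rev S (A j1) (B j1) y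
    have h3 : ((tie S (A j1) (B j1) y : ℕ) : ℝ) ≤ TIE y :=
      single_le_sum (f := fun j => ((tie S (A j) (B j) y : ℕ) : ℝ)) (fun _ _ => Nat.cast_nonneg _) hj1
    have h4 : ((φ y : ℕ) : ℝ) + (if NC y then (1 : ℝ) else 0) ≤ (cost S (A j1) (B j1) y : ℕ) := by
      by_cases hnc : NC y
      · rw [if_pos hnc]
        obtain ⟨j, hj, j', hj', hne⟩ := hnc
        have h5 : φ y < cost S (A j1) (B j1) y := by
          rcases lt_or_gt_of_ne hne with h | h
          · exact lt_of_le_of_lt (inf'_le _ hj) (lt_of_lt_of_le h (hmax j' hj'))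
          · exact lt_of_le_of_lt (inf'_le _ hj') (lt_of_lt_of_le h (hmax j hj))
        exact_mod_cast h5
      · rw [if_neg hnc, add_zero]
        exact_mod_cast (inf'_le _ hj1 : φ y ≤ cost S (A j1) (B j1) y)
    have h2' : ((cost S (A j1) (B j1) (fun x => Fin.rev (y x)) : ℕ) : ℝ) +
        ((cost S (A j1) (B j1) y : ℕ) : ℝ) = (S.card : ℝ) + ((tie S (A j1) (B j1) y : ℕ) : ℝ) := by
      exact_mod_cast h2
    have h1' : ((φ (fun x => Fin.rev (y x)) : ℕ) : ℝ) ≤
      ((cost S (A j1) (B j1) (fun x => Fin.rev (y x)) : ℕ) : ℝ) := by exact_mod_cast h1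
    linarith
  -- the non-constant assignments
  have hNCsum : (Fintype.card (α → Fin N) : ℝ) * (1 - (1 - p) ^ T.card) ≤
      ∑ y : α → Fin N, (if NC y then (1 : ℝ) else 0) := by
    have hs := sum_prod (α := α) (β := Fin N) (by
      rw [Fintype.card_fin]; exact Nat.pos_of_ne_zero (NeZero.ne N)) T P Z (-1) p hdisj (by
        intro t ht
        rw [hp t ht, Fintype.card_fin])
    have hle : ∀ y : α → Fin N, 1 - ∏ t ∈ T, (1 + -1 *
        (if ∀ a ∈ P t, y a ∈ Z t a then (1 : ℝ) else 0)) ≤ (if NC y then (1 : ℝ) else 0) := by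
      intro y
      by_cases hall : ∃ t ∈ T, ∀ a ∈ P t, y a ∈ Z t a
      · obtain ⟨t, ht, hta⟩ := hall
        rw [if_pos (hev t ht y hta)]
        have : 0 ≤ ∏ t ∈ T, (1 + -1 *
            (if ∀ a ∈ P t, y a ∈ Z t a then (1 : ℝ) else 0)) := by
          apply prod_nonneg
          intro t _
          split_ifs <;> norm_num
        linarith
      · push Not at hall
        have : ∏ t ∈ T, (1 + -1 *
            (if ∀ a ∈ P t, y a ∈ Z t a then (1 : ℝ) else 0)) = 1 := by
          apply prod_eq_one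
          intro t ht
          rw [if_neg]
          · ring
          · intro hcon
            obtain ⟨a, ha, hna⟩ := hall t ht
            exact hna (hcon a ha)
        rw [this, sub_self]
        split_ifs <;> norm_num
    calc (Fintype.card (α → Fin N) : ℝ) * (1 - (1 - p) ^ T.card)
        = (Fintype.card (α → Fin N) : ℝ) - (Fintype.card (α → Fin N) : ℝ) *
          (1 + -1 * p) ^ T.card := by ring_nf
      _ = ∑ y : α → Fin N, (1 - ∏ t ∈ T, (1 + -1 *
          (if ∀ a ∈ P t, y a ∈ Z t a then (1 : ℝ) else 0))) := by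
            rw [sum_sub_distrib, sum_const, card_univ, nsmul_eq_mul, mul_one, ← hs]
      _ ≤ _ := sum_le_sum (fun y _ => hle y)
  have hTIEsum : ∑ y : α → Fin N, TIE y =
      (J.card : ℝ) * (S.card * ((Fintype.card (α → Fin N) : ℝ) / N)) := by
    rw [hTIE, sum_comm, sum_congr rfl (fun j hj => sum_tie S (A j) (B j) (hAB j hj)), sum_const,
      nsmul_eq_mul]
  have hmain : 2 * ∑ y : α → Fin N, ((φ y : ℕ) : ℝ) ≤
      (Fintype.card (α → Fin N) : ℝ) * S.card -
        (Fintype.card (α → Fin N) : ℝ) * (1 - (1 - p) ^ T.card) +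
        (J.card : ℝ) * (S.card * ((Fintype.card (α → Fin N) : ℝ) / N)) := by
    calc 2 * ∑ y : α → Fin N, ((φ y : ℕ) : ℝ)
        = ∑ y : α → Fin N, (((φ y : ℕ) : ℝ) + ((φ (fun x => Fin.rev (y x)) : ℕ) : ℝ)) := by
          rw [sum_add_distrib, ← hrev]
          ring
      _ ≤ ∑ y : α → Fin N, ((S.card : ℝ) - (if NC y then (1 : ℝ) else 0) + TIE y) :=
          sum_le_sum (fun y _ => hpt y)
      _ = (Fintype.card (α → Fin N) : ℝ) * S.card -
          ∑ y : α → Fin N, (if NC y then (1 : ℝ) else 0) + ∑ y : α → Fin N, TIE y := by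
          rw [sum_add_distrib, sum_sub_distrib, sum_const, card_univ, nsmul_eq_mul]
      _ ≤ _ := by
          rw [hTIEsum]
          linarith
  have hN : (N : ℝ) ≠ 0 := by
    have : N ≠ 0 := NeZero.ne N
    exact_mod_cast this
  have hfin : (Fintype.card (α → Fin N) : ℝ) * ((S.card : ℝ) / 2 - (1 - (1 - p) ^ T.card) / 2 +
        (J.card : ℝ) * S.card / (2 * N)) = ((Fintype.card (α → Fin N) : ℝ) * S.card -
        (Fintype.card (α → Fin N) : ℝ) * (1 - (1 - p) ^ T.card) +
        (J.card : ℝ) * (S.card * ((Fintype.card (α → Fin N) : ℝ) / N))) / 2 := by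
    field_simp
  rw [hfin]
  linarith

end

end Pool.Agent.H66.SP
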