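import Mathlib
import Pool.Agent.H66.SP.Gram
import Pool.Agent.H66.SP.Local

set_option autoImplicit false

open Finset

namespace Pool.Agent.H66.SP

/-- Extension of an assignment on `D` by `0`. -/
def extD {N : ℕ} [NeZero N] (D : Finset ℕ) (y : D → Fin N) (x : ℕ) : Fin N :=
  if h : x ∈ D then y ⟨x, h⟩ else 0

/-- The pattern uniformity property. -/
def Gram (N m M n : ℕ) [NeZero N] (η : ℝ) (U : ℕ → Fin N) : Prop :=
  ∀ D : Finset ℕ, (∀ x ∈ D, x < M) → D.card ≤ n → ∀ y : ℕ → Fin N,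
    (((range m).filter (fun a => ∀ x ∈ D, U (x + sh m a) = y x)).card : ℝ) ≤
        ((1 / (N : ℝ)) ^ D.card + η) * m

lemma transfer {N m M n : ℕ} [NeZero N] {η : ℝ} (hη : 0 < η) {U : ℕ → Fin N}
    (hU : Gram N m M n η U) (D : Finset ℕ) (hD : ∀ x ∈ D, x < M) (hDn : D.card ≤ n)
    (φ : (ℕ → Fin N) → ℕ) (K : ℕ) (hK : ∀ y, φ y ≤ K)
    (hloc : ∀ y y' : ℕ → Fin N, (∀ x ∈ D, y x = y' x) → φ y = φ y') :
    ∑ a ∈ range m, ((φ (fun x => U (x + sh m a)) : ℕ) : ℝ) ≤
      m * ((∑ y : D → Fin N, ((φ (extD D y) : ℕ) : ℝ)) / (Fintype.card (D → Fin N) : ℝ) +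
        η * (N : ℝ) ^ n * K) := by
  classical
  have hN1 : 1 ≤ N := Nat.pos_of_ne_zero (NeZero.ne N)
  have hN : (1 : ℝ) ≤ N := by exact_mod_cast hN1
  have hN0 : (0 : ℝ) < N := by linarith
  have h1 : ∀ a ∈ range m, ((φ (fun x => U (x + sh m a)) : ℕ) : ℝ) =
      ∑ y : D → Fin N, (if ∀ x ∈ D, U (x + sh m a) = extD D y x then
        ((φ (extD D y) : ℕ) : ℝ) else 0) := by
    intro a _
    rw [sum_eq_single (fun x : D => U (x + sh m a))]
    · have h2 : ∀ x ∈ D, U (x + sh m a) = extD D (fun x : D => U (x + sh m a)) x := by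
        intro x hx
        simp [extD, hx]
      rw [if_pos h2]
      congr 1
      exact hloc _ _ h2
    · intro y _ hy
      rw [if_neg]
      intro h
      apply hy
      funext x
      have := h x x.2
      simp only [extD, x.2, dif_pos] at this
      exact this.symm
    · intro h
      exact (h (mem_univ _)).elim
  have hcard : (Fintype.card (D → Fin N) : ℝ) = (N : ℝ) ^ D.card := by
    rw [Fintype.card_fun, Fintype.card_fin, Fintype.card_coe]
    push_cast
    rfl
  have hm0 : (0 : ℝ) ≤ m := Nat.cast_nonneg m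
  calc ∑ a ∈ range m, ((φ (fun x => U (x + sh m a)) : ℕ) : ℝ)
      = ∑ a ∈ range m, ∑ y : D → Fin N, (if ∀ x ∈ D, U (x + sh m a) = extD D y x then
        ((φ (extD D y) : ℕ) : ℝ) else 0) := sum_congr rfl h1
    _ = ∑ y : D → Fin N, ∑ a ∈ range m, (if ∀ x ∈ D, U (x + sh m a) = extD D y x then
        ((φ (extD D y) : ℕ) : ℝ) else 0) := sum_comm
    _ = ∑ y : D → Fin N, (((range m).filter
          (fun a => ∀ x ∈ D, U (x + sh m a) = extD D y x)).card : ℝ) *
            ((φ (extD D y) : ℕ) : ℝ) := by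
        apply sum_congr rfl
        intro y _
        rw [← sum_filter, sum_const, nsmul_eq_mul]
    _ ≤ ∑ y : D → Fin N, (((1 / (N : ℝ)) ^ D.card + η) * m) * ((φ (extD D y) : ℕ) : ℝ) := by
        apply sum_le_sum
        intro y _
        exact mul_le_mul_of_nonneg_right (hU D hD hDn _) (Nat.cast_nonneg _)
    _ = m * ((∑ y : D → Fin N, ((φ (extD D y) : ℕ) : ℝ)) / (N : ℝ) ^ D.card +
          η * ∑ y : D → Fin N, ((φ (extD D y) : ℕ) : ℝ)) := by
        rw [← mul_sum, one_div, inv_pow]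
        ring
    _ ≤ m * ((∑ y : D → Fin N, ((φ (extD D y) : ℕ) : ℝ)) / (Fintype.card (D → Fin N) : ℝ) +
        η * (N : ℝ) ^ n * K) := by
        rw [hcard]
        apply mul_le_mul_of_nonneg_left _ hm0
        have h3 : ∑ y : D → Fin N, ((φ (extD D y) : ℕ) : ℝ) ≤ (N : ℝ) ^ n * K := by
          calc ∑ y : D → Fin N, ((φ (extD D y) : ℕ) : ℝ) ≤ ∑ y : D → Fin N, (K : ℝ) := by
                apply sum_le_sum
                intro y _
                exact_mod_cast hK _
            _ = (N : ℝ) ^ D.card * K := by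
                rw [sum_const, card_univ, nsmul_eq_mul, hcard]
            _ ≤ (N : ℝ) ^ n * K := by
                apply mul_le_mul_of_nonneg_right _ (Nat.cast_nonneg _)
                exact pow_le_pow_right₀ hN hDn
        have h4 : η * ∑ y : D → Fin N, ((φ (extD D y) : ℕ) : ℝ) ≤ η * ((N : ℝ) ^ n * K) :=
          mul_le_mul_of_nonneg_left h3 hη.le
        linarith

/-- The average over the shifts of the minimal cost of a cluster. -/
theorem cluster_bound {σ ι : Type*} [DecidableEq ι] {N m M n : ℕ} [NeZero N] {η : ℝ}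
    (hη : 0 < η) {U : ℕ → Fin N} (hU : Gram N m M n η U)
    (J : Finset ℕ) (hJ : J.Nonempty) (S : Finset σ) (hS : S.Nonempty) (a b : ℕ → σ → ℕ)
    (hab : ∀ j ∈ J, ∀ i ∈ S, a j i ≠ b j i)
    (hM : ∀ j ∈ J, ∀ i ∈ S, a j i < M ∧ b j i < M) (hn : 2 * (J.card * S.card) ≤ n)
    (T : Finset ι) (P : ι → Finset ℕ) (Z : ι → ℕ → Finset (Fin N)) (p : ℝ)
    (hP : ∀ t ∈ T, ∀ x ∈ P t, ∃ j ∈ J, ∃ i ∈ S, x = a j i ∨ x = b j i)
    (hdisj : ∀ t ∈ T, ∀ t' ∈ T, t ≠ t' → Disjoint (P t) (P t'))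
    (hp : ∀ t ∈ T, (∏ x ∈ P t, ((Z t x).card : ℝ)) = p * (N : ℝ) ^ (P t).card)
    (hev : ∀ t ∈ T, ∀ y : ℕ → Fin N, (∀ x ∈ P t, y x ∈ Z t x) →
      ∃ j ∈ J, ∃ j' ∈ J, cost S (a j) (b j) y ≠ cost S (a j') (b j') y) :
    ∑ s ∈ range m, ((J.inf' hJ (fun j => cost S (a j) (b j) (fun x => U (x + sh m s))) : ℕ) : ℝ) ≤
      m * ((S.card : ℝ) / 2 - (1 - (1 - p) ^ T.card) / 2 + (J.card : ℝ) * S.card / (2 * N) +
        η * (N : ℝ) ^ n * S.card) := by
  classical
  set D : Finset ℕ := J.biUnion (fun j => S.image (a j) ∪ S.image (b j)) with hDdef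
  have hmemD : ∀ x, x ∈ D ↔ ∃ j ∈ J, ∃ i ∈ S, x = a j i ∨ x = b j i := by
    intro x
    simp only [hDdef, mem_biUnion, mem_union, mem_image]
    constructor
    · rintro ⟨j, hj, ⟨i, hi, rfl⟩ | ⟨i, hi, rfl⟩⟩
      · exact ⟨j, hj, i, hi, Or.inl rfl⟩
      · exact ⟨j, hj, i, hi, Or.inr rfl⟩
    · rintro ⟨j, hj, i, hi, rfl | rfl⟩
      · exact ⟨j, hj, Or.inl ⟨i, hi, rfl⟩⟩
      · exact ⟨j, hj, Or.inr ⟨i, hi, rfl⟩⟩
  have haD : ∀ j ∈ J, ∀ i ∈ S, a j i ∈ D := fun j hj i hi => (hmemD _).mpr ⟨j, hj, i, hi, Or.inl rfl⟩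
  have hbD : ∀ j ∈ J, ∀ i ∈ S, b j i ∈ D := fun j hj i hi => (hmemD _).mpr ⟨j, hj, i, hi, Or.inr rfl⟩
  have hDn : D.card ≤ n := by
    refine le_trans ?_ hn
    calc D.card ≤ ∑ j ∈ J, (S.image (a j) ∪ S.image (b j)).card := card_biUnion_le
      _ ≤ ∑ _j ∈ J, (S.card + S.card) := by
          apply sum_le_sum
          intro j _
          exact (card_union_le _ _).trans (Nat.add_le_add card_image_le card_image_le)
      _ = 2 * (J.card * S.card) := by
          rw [sum_const, smul_eq_mul]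
          ring
  have hDM : ∀ x ∈ D, x < M := by
    intro x hx
    obtain ⟨j, hj, i, hi, rfl | rfl⟩ := (hmemD x).mp hx
    · exact (hM j hj i hi).1
    · exact (hM j hj i hi).2
  obtain ⟨j0, hj0⟩ := hJ
  obtain ⟨i0, hi0⟩ := hS
  have hJ : J.Nonempty := ⟨j0, hj0⟩
  let d0 : D := ⟨a j0 i0, haD j0 hj0 i0 hi0⟩
  let A : ℕ → σ → D := fun j i => if h : a j i ∈ D then ⟨a j i, h⟩ else d0
  let B : ℕ → σ → D := fun j i => if h : b j i ∈ D then ⟨b j i, h⟩ else d0
  have hA : ∀ j ∈ J, ∀ i ∈ S, ((A j i : D) : ℕ) = a j i := by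
    intro j hj i hi
    simp only [A, haD j hj i hi, dif_pos]
  have hB : ∀ j ∈ J, ∀ i ∈ S, ((B j i : D) : ℕ) = b j i := by
    intro j hj i hi
    simp only [B, hbD j hj i hi, dif_pos]
  have hcost : ∀ j ∈ J, ∀ y : D → Fin N, cost S (a j) (b j) (extD D y) = cost S (A j) (B j) y := by
    intro j hj y
    unfold cost
    congr 1
    apply filter_congr
    intro i hi
    have e1 : extD D y (a j i) = y (A j i) := by
      simp only [extD, haD j hj i hi, dif_pos, A]
    have e2 : extD D y (b j i) = y (B j i) := by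
      simp only [extD, hbD j hj i hi, dif_pos, B]
    rw [e1, e2]
  set φ : (ℕ → Fin N) → ℕ := fun y => J.inf' hJ (fun j => cost S (a j) (b j) y) with hφ
  have hK : ∀ y, φ y ≤ S.card := by
    intro y
    exact (inf'_le _ hj0).trans (card_filter_le _ _)
  have hloc : ∀ y y' : ℕ → Fin N, (∀ x ∈ D, y x = y' x) → φ y = φ y' := by
    intro y y' h
    simp only [hφ]
    apply inf'_congr hJ rfl
    intro j hj
    unfold cost
    congr 1
    apply filter_congr
    intro i hi
    rw [h _ (haD j hj i hi), h _ (hbD j hj i hi)]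
  have htr := transfer hη hU D hDM hDn φ S.card hK hloc
  have hlb := local_bound (α := D) (N := N) J hJ S A B (by
      intro j hj i hi h
      apply hab j hj i hi
      rw [← hA j hj i hi, ← hB j hj i hi, h]) T (fun t => (P t).subtype (· ∈ D))
      (fun t x => Z t x) p (by
      intro t ht t' ht' hne
      rw [Finset.disjoint_left]
      intro x hx hx'
      rw [mem_subtype] at hx hx'
      exact Finset.disjoint_left.mp (hdisj t ht t' ht' hne) hx hx') (by
      intro t ht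
      have hsub : ∀ x ∈ P t, x ∈ D := fun x hx => (hmemD x).mpr (hP t ht x hx)
      have e1 : ((P t).subtype (· ∈ D)).card = (P t).card := by
        rw [card_subtype, filter_true_of_mem hsub]
      rw [e1, ← hp t ht]
      exact prod_subtype_of_mem (fun x => ((Z t x).card : ℝ)) hsub) (by
      intro t ht y hy
      have h1 : ∀ x ∈ P t, extD D y x ∈ Z t x := by
        intro x hx
        have hxD : x ∈ D := (hmemD x).mpr (hP t ht x hx)
        simp only [extD, hxD, dif_pos]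
        exact hy ⟨x, hxD⟩ (mem_subtype.mpr hx)
      obtain ⟨j, hj, j', hj', hne⟩ := hev t ht (extD D y) h1
      rw [hcost j hj, hcost j' hj'] at hne
      exact ⟨j, hj, j', hj', hne⟩)
  have hsumeq : ∑ y : D → Fin N, ((φ (extD D y) : ℕ) : ℝ) =
      ∑ y : D → Fin N, ((J.inf' hJ (fun j => cost S (A j) (B j) y) : ℕ) : ℝ) := by
    apply sum_congr rfl
    intro y _
    congr 1
    simp only [hφ]
    apply inf'_congr hJ rfl
    intro j hj
    exact hcost j hj y
  have hcardpos : (0 : ℝ) < (Fintype.card (D → Fin N) : ℝ) := by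
    have : 0 < Fintype.card (D → Fin N) := Fintype.card_pos
    exact_mod_cast this
  refine htr.trans ?_
  apply mul_le_mul_of_nonneg_left _ (Nat.cast_nonneg m)
  have h5 : (∑ y : D → Fin N, ((φ (extD D y) : ℕ) : ℝ)) / (Fintype.card (D → Fin N) : ℝ) ≤
      (S.card : ℝ) / 2 - (1 - (1 - p) ^ T.card) / 2 + (J.card : ℝ) * S.card / (2 * N) := by
    rw [div_le_iff₀ hcardpos, hsumeq, mul_comm]
    exact hlb
  linarith

end Pool.Agent.H66.SP
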