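import Mathlib
import Pool.Agent.H66.SP.Select
import Pool.Agent.H66.SP.Transfer

set_option autoImplicit false

open Finset

namespace Pool.Agent.H66.SP

/-- Number of active windows before `x`. -/
def cnt (Q : Finset ℕ) (x : ℕ) : ℕ := (Q.filter (· < x)).card

lemma cnt_mono (Q : Finset ℕ) {x x' : ℕ} (h : x ≤ x') : cnt Q x ≤ cnt Q x' := by
  apply card_le_card
  intro z hz
  rw [mem_filter] at hz ⊢
  exact ⟨hz.1, lt_of_lt_of_le hz.2 h⟩

lemma cnt_lt (Q : Finset ℕ) {x x' : ℕ} (h : x < x') (hx : x ∈ Q) : cnt Q x + 1 ≤ cnt Q x' := by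
  have h1 : insert x (Q.filter (· < x)) ⊆ Q.filter (· < x') := by
    intro z hz
    rw [mem_insert, mem_filter] at hz
    rw [mem_filter]
    rcases hz with rfl | hz
    · exact ⟨hx, h⟩
    · exact ⟨hz.1, hz.2.trans h⟩
  have h2 := card_le_card h1
  rw [card_insert_of_notMem (by simp)] at h2
  exact h2

lemma cnt_le (Q : Finset ℕ) (x : ℕ) : cnt Q x ≤ Q.card := card_filter_le _ _

/-- The unshifted letter. -/
def base (w : ℕ) (Q : Finset ℕ) (i : ℕ) : ℕ := i + cnt Q (i / w)

/-- The letter assignment given by the states of all windows. -/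
def vo (w : ℕ) (Q : Finset ℕ) (o : ℕ → ℕ) (i : ℕ) : ℕ :=
  base w Q i + (if i / w ∈ Q ∧ o (i / w) ≤ i % w then 1 else 0)

/-- The letter assignment seen by the window `x` in state `j`. -/
def lt (w : ℕ) (Q : Finset ℕ) (x j i : ℕ) : ℕ :=
  base w Q i + (if i / w = x ∧ j ≤ i % w then 1 else 0)

lemma base_add_le (w : ℕ) (Q : Finset ℕ) {i i' : ℕ} (h : i ≤ i') :
    base w Q i + (i' - i) ≤ base w Q i' := by
  unfold base
  have := cnt_mono Q (Nat.div_le_div_right h : i / w ≤ i' / w)
  omega

lemma vo_strictMono {w : ℕ} (Q : Finset ℕ) (o : ℕ → ℕ) : StrictMono (vo w Q o) := by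
  intro i i' h
  unfold vo
  rcases (Nat.div_le_div_right h.le : i / w ≤ i' / w).eq_or_lt with he | hl
  · have h1 := base_add_le w Q h.le
    have hmod : i % w < i' % w := by
      have e1 := Nat.div_add_mod i w
      have e2 := Nat.div_add_mod i' w
      rw [he] at e1
      omega
    have h2 : (if i / w ∈ Q ∧ o (i / w) ≤ i % w then 1 else 0) ≤
        (if i' / w ∈ Q ∧ o (i' / w) ≤ i' % w then 1 else 0) := by
      split_ifs with h3 h4
      · exact le_rfl
      · exfalso
        apply h4
        rw [← he]
        exact ⟨h3.1, h3.2.trans hmod.le⟩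
      · exact Nat.zero_le _
      · exact le_rfl
    omega
  · unfold base
    by_cases hQ : i / w ∈ Q
    · have h1 := cnt_lt Q hl hQ
      split_ifs <;> omega
    · have h1 := cnt_mono Q hl.le
      rw [if_neg (fun h3 => hQ h3.1)]
      split_ifs <;> omega

lemma lt_eq_vo {w : ℕ} (hw : 0 < w) {Q : Finset ℕ} {x : ℕ} (hx : x ∈ Q) (j i : ℕ) :
    lt w Q x j i = vo w Q (fun z => if z = x then j else w) i := by
  unfold lt vo
  congr 1
  have hmod := Nat.mod_lt i hw
  by_cases h : i / w = x
  · simp [h, hx]
  · simp only [h, false_and, if_false]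
    rw [if_neg]
    rintro ⟨_, h2⟩
    omega

lemma lt_strictMono {w : ℕ} (hw : 0 < w) {Q : Finset ℕ} {x : ℕ} (hx : x ∈ Q) (j : ℕ) :
    StrictMono (lt w Q x j) := by
  have : lt w Q x j = vo w Q (fun z => if z = x then j else w) := by
    funext i
    exact lt_eq_vo hw hx j i
  rw [this]
  exact vo_strictMono Q _

lemma lt_le {w : ℕ} {Q : Finset ℕ} {x j i : ℕ} : lt w Q x j i ≤ i + Q.card + 1 := by
  unfold lt base
  have := cnt_le Q (i / w)
  split_ifs <;> omega

lemma lt_succ_eq {w : ℕ} {Q : Finset ℕ} {x i i' : ℕ} (hi : i / w = x) (hne : i' ≠ i) :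
    lt w Q x (i % w + 1) i' = lt w Q x (i % w) i' := by
  unfold lt
  congr 1
  by_cases h : i' / w = x
  · have hmod : i' % w ≠ i % w := by
      intro h2
      apply hne
      have e1 := Nat.div_add_mod i w
      have e2 := Nat.div_add_mod i' w
      rw [hi] at e1
      rw [h, h2] at e2
      omega
    simp only [h, true_and]
    by_cases h3 : i % w ≤ i' % w
    · rw [if_pos h3, if_pos (by omega)]
    · rw [if_neg h3, if_neg (by omega)]
  · simp [h]

lemma lt_self {w : ℕ} {Q : Finset ℕ} {x i : ℕ} (hi : i / w = x) :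
    lt w Q x (i % w) i = base w Q i + 1 := by
  unfold lt
  rw [if_pos ⟨hi, le_rfl⟩]

lemma lt_self_succ {w : ℕ} {Q : Finset ℕ} {x i : ℕ} :
    lt w Q x (i % w + 1) i = base w Q i := by
  unfold lt
  rw [if_neg (by omega), Nat.add_zero]

lemma lt_range {w : ℕ} {Q : Finset ℕ} {x j i : ℕ} :
    lt w Q x j i = base w Q i ∨ lt w Q x j i = base w Q i + 1 := by
  unfold lt
  split_ifs
  · exact Or.inr rfl
  · exact Or.inl rfl

/-- The quarters of `Fin (4 N')`. -/
def qtr (N' c : ℕ) : Finset (Fin (4 * N')) :=
  univ.filter (fun z => c * N' ≤ z.val ∧ z.val < c * N' + N')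

lemma card_qtr {N' c : ℕ} (hc : c < 4) : (qtr N' c).card = N' := by
  have hlt : ∀ z ∈ Finset.Ico (c * N') (c * N' + N'), z < 4 * N' := by
    intro z hz
    rw [Finset.mem_Ico] at hz
    have : c * N' + N' ≤ 4 * N' := by
      calc c * N' + N' = (c + 1) * N' := by ring
        _ ≤ 4 * N' := Nat.mul_le_mul_right _ hc
    omega
  have h1 : qtr N' c = (Finset.Ico (c * N') (c * N' + N')).attachFin hlt := by
    ext z
    rw [mem_attachFin, Finset.mem_Ico]
    simp [qtr]
  rw [h1, card_attachFin, Nat.card_Ico]
  omega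

lemma qtr_lt {N' c c' : ℕ} (h : c < c') {z z' : Fin (4 * N')} (hz : z ∈ qtr N' c)
    (hz' : z' ∈ qtr N' c') : z < z' := by
  simp only [qtr, mem_filter, mem_univ, true_and] at hz hz'
  rw [Fin.lt_def]
  have : c * N' + N' ≤ c' * N' := by
    calc c * N' + N' = (c + 1) * N' := by ring
      _ ≤ c' * N' := Nat.mul_le_mul_right _ h
  omega

section cluster

variable {k : ℕ} (π : Equiv.Perm (Fin k))

/-- Steps touching the window `x`. -/
def stp (w x : ℕ) : Finset (Fin k) :=
  univ.filter (fun i => i.val / w = x ∨ (π i).val / w = x)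

lemma card_stp {w x : ℕ} (hw : 0 < w) : (stp π w x).card ≤ 2 * w := by
  have h1 : stp π w x ⊆ wnd k w x ∪ (wnd k w x).image π.symm := by
    intro i hi
    simp only [stp, mem_filter, mem_univ, true_and] at hi
    rw [mem_union]
    rcases hi with hi | hi
    · left
      simp [wnd, hi]
    · right
      rw [mem_image]
      exact ⟨π i, by simp [wnd, hi], by simp⟩
  calc (stp π w x).card ≤ _ := card_le_card h1
    _ ≤ (wnd k w x).card + ((wnd k w x).image π.symm).card := card_union_le _ _
    _ ≤ w + w := Nat.add_le_add (card_wnd_le hw) (card_image_le.trans (card_wnd_le hw))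
    _ = 2 * w := by ring

/-- Estimate for one active window. -/
theorem window_bound {w g q N' m M n x : ℕ} [NeZero (4 * N')] {η : ℝ} (hη : 0 < η)
    {U : ℕ → Fin (4 * N')} (hU : Gram (4 * N') m M n η U)
    (hg : 0 < g) (hw : w = 27 * g) (hn : 4 * (w * (w + 1)) ≤ n)
    (hπ1 : ∀ i, π i ≠ i) (hπ2 : ∀ i, π (π i) ≠ i)
    (Q : Finset ℕ) (hQ : Q.card = q) (hx : x ∈ Q) (hxk : x < k / w) (hM : k + q + 1 ≤ M) :
    ∑ s ∈ range m, (((range (w + 1)).inf' (nonempty_range_add_one)
        (fun j => cost (stp π w x) (fun i => lt w Q x j i.val) (fun i => lt w Q x j (π i).val)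
          (fun z => U (z + sh m s))) : ℕ) : ℝ) ≤
      m * (((stp π w x).card : ℝ) / 2 - (1 - (1 - 1 / 256) ^ g) / 2 +
        ((w : ℝ) + 1) * (stp π w x).card / (2 * (4 * N' : ℕ)) +
        η * ((4 * N' : ℕ) : ℝ) ^ n * (stp π w x).card) := by
  classical
  have hw0 : 0 < w := by omega
  have hN' : 0 < N' := by
    rcases Nat.eq_zero_or_pos N' with h | h
    · exfalso
      have := NeZero.ne (4 * N')
      apply this
      simp [h]
    · exact h
  obtain ⟨I, hIc, hIs, hI⟩ := exists_nonconf π hw hg hxk
  have hIx : ∀ i ∈ I, i.val / w = x := by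
    intro i hi
    have := hIs hi
    simpa [wnd] using this
  have hmod : ∀ i : Fin k, i.val % w < w := fun i => Nat.mod_lt _ hw0
  have hsne : (stp π w x).Nonempty := by
    obtain ⟨i, hi⟩ : I.Nonempty := by
      rw [← card_pos, hIc]
      exact hg
    exact ⟨i, by simp [stp, hIx i hi]⟩
  let P : Fin k → Finset ℕ := fun i =>
    {lt w Q x (i.val % w) (π.symm i).val, lt w Q x (i.val % w) i.val,
      lt w Q x (i.val % w) (π i).val, lt w Q x (i.val % w + 1) i.val}
  let Z : Fin k → ℕ → Finset (Fin (4 * N')) := fun i z =>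
    if z = lt w Q x (i.val % w) (π.symm i).val then qtr N' 0
    else if z = lt w Q x (i.val % w) i.val then qtr N' 1
    else if z = lt w Q x (i.val % w) (π i).val then qtr N' 2
    else qtr N' 3
  have hinj : ∀ j, Function.Injective (fun i : Fin k => lt w Q x j i.val) := by
    intro j a b h
    exact Fin.ext ((lt_strictMono hw0 hx j).injective h)
  have hsymm1 : ∀ i, π.symm i ≠ i := by
    intro i h
    apply hπ1 i
    have := congrArg π h
    rw [Equiv.apply_symm_apply] at this
    exact this.symm
  have hsymm2 : ∀ i, π.symm i ≠ π i := by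
    intro i h
    apply hπ2 i
    have := congrArg π h
    rw [Equiv.apply_symm_apply] at this
    exact this.symm
  -- distinctness of the four letters
  have hd12 : ∀ i, lt w Q x (i.val % w) (π.symm i).val ≠ lt w Q x (i.val % w) i.val :=
    fun i h => hsymm1 i (hinj _ h)
  have hd13 : ∀ i, lt w Q x (i.val % w) (π.symm i).val ≠ lt w Q x (i.val % w) (π i).val :=
    fun i h => hsymm2 i (hinj _ h)
  have hd23 : ∀ i, lt w Q x (i.val % w) i.val ≠ lt w Q x (i.val % w) (π i).val :=
    fun i h => (hπ1 i) (hinj _ h).symm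
  have hd14 : ∀ i ∈ I, lt w Q x (i.val % w) (π.symm i).val ≠ lt w Q x (i.val % w + 1) i.val := by
    intro i hi h
    rw [← lt_succ_eq (hIx i hi) (fun h' => hsymm1 i (Fin.ext h'))] at h
    exact hsymm1 i (hinj _ h)
  have hd24 : ∀ i ∈ I, lt w Q x (i.val % w) i.val ≠ lt w Q x (i.val % w + 1) i.val := by
    intro i hi h
    rw [lt_self (hIx i hi), lt_self_succ] at h
    omega
  have hd34 : ∀ i ∈ I, lt w Q x (i.val % w) (π i).val ≠ lt w Q x (i.val % w + 1) i.val := by
    intro i hi h
    rw [← lt_succ_eq (hIx i hi) (fun h' => hπ1 i (Fin.ext h'))] at h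
    exact hπ1 i (hinj _ h)
  have hZ1 : ∀ i, Z i (lt w Q x (i.val % w) (π.symm i).val) = qtr N' 0 := by
    intro i
    simp [Z]
  have hZ2 : ∀ i, Z i (lt w Q x (i.val % w) i.val) = qtr N' 1 := by
    intro i
    simp [Z, (hd12 i).symm]
  have hZ3 : ∀ i, Z i (lt w Q x (i.val % w) (π i).val) = qtr N' 2 := by
    intro i
    simp [Z, (hd13 i).symm, (hd23 i).symm]
  have hZ4 : ∀ i ∈ I, Z i (lt w Q x (i.val % w + 1) i.val) = qtr N' 3 := by
    intro i hi
    simp only [Z]
    rw [if_neg (hd14 i hi).symm, if_neg (hd24 i hi).symm, if_neg (hd34 i hi).symm]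
  have hPbase : ∀ i, ∀ z ∈ P i, ∃ j ∈ nbr π i, z = base w Q j.val ∨ z = base w Q j.val + 1 := by
    intro i z hz
    simp only [P, mem_insert, mem_singleton] at hz
    rcases hz with rfl | rfl | rfl | rfl
    · exact ⟨π.symm i, by simp [mem_nbr], lt_range⟩
    · exact ⟨i, by simp [mem_nbr], lt_range⟩
    · exact ⟨π i, by simp [mem_nbr], lt_range⟩
    · exact ⟨i, by simp [mem_nbr], lt_range⟩
  have hkey := cluster_bound (σ := Fin k) (ι := Fin k) hη hU (range (w + 1))
    (nonempty_range_add_one) (stp π w x) hsne (fun j i => lt w Q x j i.val)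
    (fun j i => lt w Q x j (π i).val)
    (by
      intro j _ i _ h
      exact hπ1 i (hinj j h).symm)
    (by
      intro j _ i _
      have h1 := lt_le (w := w) (Q := Q) (x := x) (j := j) (i := i.val)
      have h2 := lt_le (w := w) (Q := Q) (x := x) (j := j) (i := (π i).val)
      have h3 := i.isLt
      have h4 := (π i).isLt
      constructor <;> omega)
    (by
      rw [card_range]
      have h1 := card_stp π (x := x) hw0
      calc 2 * ((w + 1) * (stp π w x).card) ≤ 2 * ((w + 1) * (2 * w)) :=
            Nat.mul_le_mul_left _ (Nat.mul_le_mul_left _ h1)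
        _ = 4 * (w * (w + 1)) := by ring
        _ ≤ n := hn)
    I P Z (1 / 256)
    (by
      intro i hi z hz
      have hiS : i ∈ stp π w x := by simp [stp, hIx i hi]
      have hiS' : π.symm i ∈ stp π w x := by simp [stp, hIx i hi]
      have hc : i.val % w ∈ range (w + 1) := mem_range.mpr (by have := hmod i; omega)
      have hc' : i.val % w + 1 ∈ range (w + 1) := mem_range.mpr (by have := hmod i; omega)
      simp only [P, mem_insert, mem_singleton] at hz
      rcases hz with rfl | rfl | rfl | rfl
      · exact ⟨_, hc, π.symm i, hiS', Or.inl rfl⟩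
      · exact ⟨_, hc, i, hiS, Or.inl rfl⟩
      · exact ⟨_, hc, i, hiS, Or.inr rfl⟩
      · exact ⟨_, hc', i, hiS, Or.inl rfl⟩)
    (by
      intro i hi i' hi' hne
      rw [Finset.disjoint_left]
      intro z hz hz'
      obtain ⟨j, hj, hzj⟩ := hPbase i z hz
      obtain ⟨j', hj', hzj'⟩ := hPbase i' z hz'
      apply hI i hi i' hi' hne
      refine ⟨j, hj, j', hj', ?_, ?_⟩
      · by_contra hcon
        have h1 := base_add_le w Q (by omega : j'.val ≤ j.val)
        omega
      · by_contra hcon
        have h1 := base_add_le w Q (by omega : j.val ≤ j'.val)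
        omega)
    (by
      intro i hi
      simp only [P]
      rw [prod_insert, prod_insert, prod_insert, prod_singleton, card_insert_of_notMem,
        card_insert_of_notMem, card_insert_of_notMem, card_singleton, hZ1, hZ2, hZ3, hZ4 i hi,
        card_qtr (by norm_num), card_qtr (by norm_num), card_qtr (by norm_num),
        card_qtr (by norm_num)]
      · push_cast
        ring
      all_goals simp only [mem_insert, mem_singleton, not_or]
      · exact hd34 i hi
      · exact ⟨hd23 i, hd24 i hi⟩
      · exact ⟨hd12 i, hd13 i, hd14 i hi⟩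
      · exact hd34 i hi
      · exact ⟨hd23 i, hd24 i hi⟩
      · exact ⟨hd12 i, hd13 i, hd14 i hi⟩)
    (by
      intro i hi y hy
      have hc : i.val % w ∈ range (w + 1) := mem_range.mpr (by have := hmod i; omega)
      have hc' : i.val % w + 1 ∈ range (w + 1) := mem_range.mpr (by have := hmod i; omega)
      refine ⟨_, hc, _, hc', ?_⟩
      have y1 : y (lt w Q x (i.val % w) (π.symm i).val) ∈ qtr N' 0 := by
        rw [← hZ1 i]
        exact hy _ (by simp [P])
      have y2 : y (lt w Q x (i.val % w) i.val) ∈ qtr N' 1 := by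
        rw [← hZ2 i]
        exact hy _ (by simp [P])
      have y3 : y (lt w Q x (i.val % w) (π i).val) ∈ qtr N' 2 := by
        rw [← hZ3 i]
        exact hy _ (by simp [P])
      have y4 : y (lt w Q x (i.val % w + 1) i.val) ∈ qtr N' 3 := by
        rw [← hZ4 i hi]
        exact hy _ (by simp [P])
      have l12 := qtr_lt (by norm_num : 0 < 1) y1 y2
      have l23 := qtr_lt (by norm_num : 1 < 2) y2 y3
      have l34 := qtr_lt (by norm_num : 2 < 3) y3 y4
      have hiS : i ∈ stp π w x := by simp [stp, hIx i hi]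
      -- the two descent sets
      have hset : (stp π w x).filter (fun i' => y (lt w Q x (i.val % w + 1) (π i').val) ≤
          y (lt w Q x (i.val % w + 1) i'.val)) =
          insert i ((stp π w x).filter (fun i' => y (lt w Q x (i.val % w) (π i').val) ≤
          y (lt w Q x (i.val % w) i'.val))) := by
        ext i'
        rw [mem_insert, mem_filter, mem_filter]
        rcases eq_or_ne i' i with rfl | hne
        · simp only [true_or, iff_true]
          refine ⟨hiS, ?_⟩
          rw [lt_succ_eq (hIx i' hi) (fun h' => hπ1 i' (Fin.ext h'))]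
          exact l34.le
        · have e1 : lt w Q x (i.val % w + 1) i'.val = lt w Q x (i.val % w) i'.val :=
            lt_succ_eq (hIx i hi) (fun h' => hne (Fin.ext h'))
          rcases eq_or_ne (π i') i with he | hne2
          · -- the step into i
            have hi' : i' = π.symm i := by rw [← he, Equiv.symm_apply_apply]
            rw [e1, he]
            subst hi'
            constructor
            · rintro ⟨_, h⟩
              exact absurd h (not_le.mpr (l12.trans (l23.trans l34)))
            · rintro (h | ⟨_, h⟩)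
              · exact absurd h hne
              · exact absurd h (not_le.mpr l12)
          · have e2 : lt w Q x (i.val % w + 1) (π i').val = lt w Q x (i.val % w) (π i').val :=
              lt_succ_eq (hIx i hi) (fun h' => hne2 (Fin.ext h'))
            rw [e1, e2]
            simp [hne]
      have hnot : i ∉ (stp π w x).filter (fun i' => y (lt w Q x (i.val % w) (π i').val) ≤
          y (lt w Q x (i.val % w) i'.val)) := by
        rw [mem_filter]
        rintro ⟨_, h⟩
        exact absurd h (not_le.mpr l23)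
      unfold cost
      rw [hset, card_insert_of_notMem hnot]
      exact (Nat.succ_ne_self _).symm)
  rw [hIc, card_range] at hkey
  push_cast at hkey ⊢
  exact hkey

end cluster

end Pool.Agent.H66.SP
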