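import Mathlib
import Pool.Agent.H66.SP.Assign

set_option autoImplicit false

open Finset

namespace Pool.Agent.H66.SP

section assemble

variable {k : ℕ} (π : Equiv.Perm (Fin k))

/-- Steps touching no active window. -/
def stp0 (w : ℕ) (Q : Finset ℕ) : Finset (Fin k) :=
  univ.filter (fun i => i.val / w ∉ Q ∧ (π i).val / w ∉ Q)

lemma stp_card_sum {w : ℕ} (Q : Finset ℕ)
    (hQ : ∀ x ∈ Q, ∀ x' ∈ Q, x ≠ x' → ¬ adj π w x x') :
    (stp0 π w Q).card + ∑ x ∈ Q, (stp π w x).card = k := by
  classical
  have h1 : (Q.biUnion (fun x => stp π w x)).card = ∑ x ∈ Q, (stp π w x).card := by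
    apply card_biUnion
    intro x hx x' hx' hne
    change Disjoint (stp π w x) (stp π w x')
    rw [Finset.disjoint_left]
    intro i hi hi'
    simp only [stp, mem_filter, mem_univ, true_and] at hi hi'
    rcases hi with h | h
    · rcases hi' with h' | h'
      · exact hne (h.symm.trans h')
      · exact hQ x hx x' hx' hne (Or.inr ⟨i, Or.inl ⟨h, h'⟩⟩)
    · rcases hi' with h' | h'
      · exact hQ x hx x' hx' hne (Or.inr ⟨i, Or.inr ⟨h', h⟩⟩)
      · exact hne (h.symm.trans h')
  have h2 : Disjoint (stp0 π w Q) (Q.biUnion (fun x => stp π w x)) := by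
    rw [Finset.disjoint_left]
    intro i hi hi'
    simp only [stp0, mem_filter, mem_univ, true_and] at hi
    simp only [mem_biUnion, stp, mem_filter, mem_univ, true_and] at hi'
    obtain ⟨x, hx, h | h⟩ := hi'
    · exact hi.1 (h ▸ hx)
    · exact hi.2 (h ▸ hx)
  have h3 : stp0 π w Q ∪ Q.biUnion (fun x => stp π w x) = univ := by
    ext i
    simp only [mem_union, stp0, mem_filter, mem_univ, true_and, mem_biUnion, stp, iff_true]
    by_cases ha : i.val / w ∈ Q
    · exact Or.inr ⟨_, ha, Or.inl rfl⟩
    · by_cases hb : (π i).val / w ∈ Q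
      · exact Or.inr ⟨_, hb, Or.inr rfl⟩
      · exact Or.inl ⟨ha, hb⟩
  rw [← h1, ← card_union_of_disjoint h2, h3, card_univ, Fintype.card_fin]

/-- The main selection theorem: a good letter assignment exists for every permutation `π`. -/
theorem exists_assignment {w g q N' m M n : ℕ} [NeZero (4 * N')] {η : ℝ} (hη : 0 < η)
    {U : ℕ → Fin (4 * N')} (hU : Gram (4 * N') m M n η U) (hm : 0 < m)
    (hg : 0 < g) (hw : w = 27 * g) (hn : 4 * (w * (w + 1)) ≤ n)
    (hπ1 : ∀ i, π i ≠ i) (hπ2 : ∀ i, π (π i) ≠ i)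
    (hq : (2 * w + 1) * q ≤ k / w) (hM : k + q + 1 ≤ M) :
    ∃ V : ℕ → ℕ, StrictMono V ∧ (∀ i, V i ≤ i + q + 1 + 4 * m ^ 3) ∧
      (((univ : Finset (Fin k)).filter (fun i => U (V (π i).val) ≤ U (V i.val))).card : ℝ) ≤
        (k : ℝ) / 2 - (q : ℝ) * ((1 - (255 / 256) ^ g) / 2) +
          k * (((w : ℝ) + 1) / (2 * (4 * N' : ℕ)) + η * ((4 * N' : ℕ) : ℝ) ^ n) := by
  classical
  have hw0 : 0 < w := by omega
  have hNpos : (0 : ℝ) < ((4 * N' : ℕ) : ℝ) := by
    have : 0 < 4 * N' := Nat.pos_of_ne_zero (NeZero.ne _)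
    exact_mod_cast this
  obtain ⟨Q, hQc, hQk, hQ⟩ := exists_windows π hw0 hq
  set N : ℝ := ((4 * N' : ℕ) : ℝ) with hN
  set B1 : ℝ := 1 / 2 + ((w : ℝ) + 1) / (2 * N) + η * N ^ n with hB1
  -- the two kinds of costs
  let c0 : ℕ → Fin k → ℕ := fun s i =>
    cost {i} (fun i : Fin k => base w Q i.val) (fun i : Fin k => base w Q (π i).val)
      (fun z => U (z + sh m s))
  let cj : ℕ → ℕ → ℕ → ℕ := fun s x j =>
    cost (stp π w x) (fun i => lt w Q x j i.val) (fun i => lt w Q x j (π i).val)
          (fun z => U (z + sh m s))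
  let cx : ℕ → ℕ → ℕ := fun s x => (range (w + 1)).inf' nonempty_range_add_one (cj s x)
  have hbase_inj : ∀ i : Fin k, base w Q i.val ≠ base w Q (π i).val := by
    intro i h
    apply hπ1 i
    rcases lt_trichotomy i.val (π i).val with h1 | h1 | h1
    · have := base_add_le w Q h1.le
      omega
    · exact Fin.ext h1.symm
    · have := base_add_le w Q h1.le
      omega
  have hbase_le : ∀ i : ℕ, base w Q i ≤ i + q := by
    intro i
    unfold base
    have := cnt_le Q (i / w)
    omega
  have hsingle : ∀ i ∈ stp0 π w Q, ∑ s ∈ range m, ((c0 s i : ℕ) : ℝ) ≤ m * B1 := by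
    intro i _
    have h := cluster_bound (σ := Fin k) (ι := Fin k) hη hU ({0} : Finset ℕ)
      (singleton_nonempty 0) ({i} : Finset (Fin k)) (singleton_nonempty i)
      (fun _ i => base w Q i.val) (fun _ i => base w Q (π i).val)
      (by
        intro j _ i' _
        exact hbase_inj i')
      (by
        intro j _ i' _
        have h1 := hbase_le i'.val
        have h2 := hbase_le (π i').val
        have h3 := i'.isLt
        have h4 := (π i').isLt
        constructor <;> omega)
      (by
        rw [card_singleton, card_singleton]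
        have : 1 ≤ w * (w + 1) := Nat.succ_le_of_lt (by positivity)
        omega)
      (∅ : Finset (Fin k)) (fun _ => ∅) (fun _ _ => ∅) 0
      (by intro t ht; exact absurd ht (notMem_empty t))
      (by intro t ht; exact absurd ht (notMem_empty t))
      (by intro t ht; exact absurd ht (notMem_empty t))
      (by intro t ht; exact absurd ht (notMem_empty t))
    simp only [inf'_singleton, card_singleton, card_empty, pow_zero, Nat.cast_one, sub_self,
      zero_div, sub_zero, mul_one] at h
    refine le_trans h ?_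
    apply mul_le_mul_of_nonneg_left _ (Nat.cast_nonneg m)
    rw [hB1]
    have h5 : 1 / (2 * N) ≤ ((w : ℝ) + 1) / (2 * N) := by
      apply div_le_div_of_nonneg_right _ (by positivity)
      have : (0 : ℝ) ≤ w := Nat.cast_nonneg w
      linarith
    linarith
  have hwin : ∀ x ∈ Q, ∑ s ∈ range m, ((cx s x : ℕ) : ℝ) ≤
      m * (((stp π w x).card : ℝ) * B1 - (1 - (255 / 256) ^ g) / 2) := by
    intro x hx
    have h := window_bound π hη hU hg hw hn hπ1 hπ2 Q hQc hx (hQk x hx) hM
    refine le_trans h ?_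
    apply mul_le_mul_of_nonneg_left _ (Nat.cast_nonneg m)
    have e1 : (1 - 1 / 256 : ℝ) = 255 / 256 := by norm_num
    rw [e1, hB1]
    apply le_of_eq
    ring
  -- total
  let F : ℕ → ℝ := fun s => ∑ i ∈ stp0 π w Q, ((c0 s i : ℕ) : ℝ) + ∑ x ∈ Q, ((cx s x : ℕ) : ℝ)
  have hFsum : ∑ s ∈ range m, F s ≤ m * ((k : ℝ) * B1 - (q : ℝ) * ((1 - (255 / 256) ^ g) / 2)) := by
    have h1 : ∑ s ∈ range m, F s = ∑ i ∈ stp0 π w Q, ∑ s ∈ range m, ((c0 s i : ℕ) : ℝ) +
        ∑ x ∈ Q, ∑ s ∈ range m, ((cx s x : ℕ) : ℝ) := by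
      simp only [F]
      rw [sum_add_distrib, sum_comm]
      congr 1
      rw [sum_comm]
    rw [h1]
    have hcard : ((stp0 π w Q).card : ℝ) + ∑ x ∈ Q, ((stp π w x).card : ℝ) = k := by
      exact_mod_cast stp_card_sum π Q hQ
    calc _ ≤ ∑ i ∈ stp0 π w Q, (m : ℝ) * B1 +
          ∑ x ∈ Q, (m : ℝ) * (((stp π w x).card : ℝ) * B1 - (1 - (255 / 256) ^ g) / 2) :=
          add_le_add (sum_le_sum hsingle) (sum_le_sum hwin)
      _ = m * ((((stp0 π w Q).card : ℝ) + ∑ x ∈ Q, ((stp π w x).card : ℝ)) * B1 -
          (Q.card : ℝ) * ((1 - (255 / 256) ^ g) / 2)) := by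
          have e1 : ∑ x ∈ Q, (m : ℝ) * (((stp π w x).card : ℝ) * B1 - (1 - (255 / 256) ^ g) / 2) =
              m * ((∑ x ∈ Q, ((stp π w x).card : ℝ)) * B1 -
                (Q.card : ℝ) * ((1 - (255 / 256) ^ g) / 2)) := by
            rw [← mul_sum, sum_sub_distrib, ← sum_mul, sum_const, nsmul_eq_mul]
          rw [e1, sum_const, nsmul_eq_mul]
          ring
      _ = _ := by rw [hcard, hQc]
  obtain ⟨s, hs, hFs⟩ : ∃ s ∈ range m, F s ≤
      (k : ℝ) * B1 - (q : ℝ) * ((1 - (255 / 256) ^ g) / 2) := by
    by_contra hcon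
    push Not at hcon
    have h1 : ∑ s ∈ range m, ((k : ℝ) * B1 - (q : ℝ) * ((1 - (255 / 256) ^ g) / 2)) <
        ∑ s ∈ range m, F s := sum_lt_sum_of_nonempty ⟨0, mem_range.mpr hm⟩ hcon
    rw [sum_const, card_range, nsmul_eq_mul] at h1
    linarith
  -- the states
  have hst : ∀ x : ℕ, ∃ j, cx s x = cj s x j := by
    intro x
    obtain ⟨j, _, hj⟩ := exists_mem_eq_inf' (nonempty_range_add_one (n := w)) (cj s x)
    exact ⟨j, hj⟩
  choose o ho using hst
  have hvo : ∀ x ∈ Q, ∀ i : ℕ, (i / w = x ∨ i / w ∉ Q) → vo w Q o i = lt w Q x (o x) i := by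
    intro x hx i hi
    unfold vo lt
    congr 1
    rcases hi with h | h
    · subst h
      simp [hx]
    · have hne : i / w ≠ x := by
        rintro rfl
        exact h hx
      simp [h, hne]
  refine ⟨fun i => vo w Q o i + sh m s, ?_, ?_, ?_⟩
  · intro a b hab
    exact Nat.add_lt_add_right (vo_strictMono Q o hab) _
  · intro i
    have h1 := sh_le (mem_range.mp hs)
    have h2 := hbase_le i
    have h3 : vo w Q o i ≤ base w Q i + 1 := by
      unfold vo
      split_ifs <;> omega
    change vo w Q o i + sh m s ≤ _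
    omega
  · set D := (univ : Finset (Fin k)).filter
      (fun i => U (vo w Q o (π i).val + sh m s) ≤ U (vo w Q o i.val + sh m s)) with hD
    have hcover : D ⊆ (stp0 π w Q).filter
        (fun i => U (base w Q (π i).val + sh m s) ≤ U (base w Q i.val + sh m s)) ∪
        Q.biUnion (fun x => (stp π w x).filter
        (fun i => U (lt w Q x (o x) (π i).val + sh m s) ≤ U (lt w Q x (o x) i.val + sh m s))) := by
      intro i hi
      rw [hD, mem_filter] at hi
      have hi2 := hi.2
      rw [mem_union]
      by_cases hi0 : i ∈ stp0 π w Q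
      · left
        rw [mem_filter]
        refine ⟨hi0, ?_⟩
        simp only [stp0, mem_filter, mem_univ, true_and] at hi0
        have e1 : vo w Q o i.val = base w Q i.val := by
          unfold vo
          rw [if_neg (fun h => hi0.1 h.1), Nat.add_zero]
        have e2 : vo w Q o (π i).val = base w Q (π i).val := by
          unfold vo
          rw [if_neg (fun h => hi0.2 h.1), Nat.add_zero]
        rw [e1, e2] at hi2
        exact hi2
      · right
        rw [mem_biUnion]
        have hcase : i.val / w ∈ Q ∨ (π i).val / w ∈ Q := by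
          by_contra hcon
          push Not at hcon
          apply hi0
          simp only [stp0, mem_filter, mem_univ, true_and]
          exact hcon
        -- pick the active window
        obtain ⟨x, hx, hxi, hxi1, hxi2⟩ : ∃ x ∈ Q, (i.val / w = x ∨ (π i).val / w = x) ∧
            (i.val / w = x ∨ i.val / w ∉ Q) ∧ ((π i).val / w = x ∨ (π i).val / w ∉ Q) := by
          rcases hcase with h | h
          · refine ⟨_, h, Or.inl rfl, Or.inl rfl, ?_⟩
            by_cases h2 : (π i).val / w ∈ Q
            · left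
              by_contra hne
              exact hQ _ h _ h2 (Ne.symm hne) (Or.inr ⟨i, Or.inl ⟨rfl, rfl⟩⟩)
            · exact Or.inr h2
          · refine ⟨_, h, Or.inr rfl, ?_, Or.inl rfl⟩
            by_cases h2 : i.val / w ∈ Q
            · left
              by_contra hne
              exact hQ _ h2 _ h hne (Or.inr ⟨i, Or.inl ⟨rfl, rfl⟩⟩)
            · exact Or.inr h2
        refine ⟨x, hx, ?_⟩
        rw [mem_filter]
        refine ⟨by simpa [stp] using hxi, ?_⟩
        rw [hvo x hx _ hxi1, hvo x hx _ hxi2] at hi2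
        exact hi2
    have hD1 : D.card ≤ ((stp0 π w Q).filter
        (fun i => U (base w Q (π i).val + sh m s) ≤ U (base w Q i.val + sh m s))).card +
        ∑ x ∈ Q, ((stp π w x).filter
        (fun i => U (lt w Q x (o x) (π i).val + sh m s) ≤
          U (lt w Q x (o x) i.val + sh m s))).card :=
      (card_le_card hcover).trans ((card_union_le _ _).trans
        (Nat.add_le_add_left card_biUnion_le _))
    have hc0 : ((stp0 π w Q).filter
        (fun i => U (base w Q (π i).val + sh m s) ≤ U (base w Q i.val + sh m s))).card =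
        ∑ i ∈ stp0 π w Q, c0 s i := by
      rw [card_filter]
      apply sum_congr rfl
      intro i _
      simp only [c0, cost, filter_singleton]
      split_ifs <;> simp
    have hcx : ∀ x ∈ Q, ((stp π w x).filter
        (fun i => U (lt w Q x (o x) (π i).val + sh m s) ≤
          U (lt w Q x (o x) i.val + sh m s))).card = cx s x := by
      intro x _
      rw [ho x]
      rfl
    rw [hc0, sum_congr rfl hcx] at hD1
    have hD2 : (D.card : ℝ) ≤ F s := by
      simp only [F]
      exact_mod_cast hD1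
    have hfin : (k : ℝ) * B1 - (q : ℝ) * ((1 - (255 / 256) ^ g) / 2) =
        (k : ℝ) / 2 - (q : ℝ) * ((1 - (255 / 256) ^ g) / 2) +
          k * (((w : ℝ) + 1) / (2 * N) + η * N ^ n) := by
      rw [hB1]
      ring
    rw [← hfin]
    exact hD2.trans hFs

end assemble

end Pool.Agent.H66.SP
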