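import Mathlib
import Pool.Agent.H66.SP.Assemble

set_option autoImplicit false

open Finset

namespace Pool.Agent.H66.SP

/-- The periodic word with period `s`. -/
def pword {r : ℕ} (hr : 0 < r) (s : Equiv.Perm (Fin r)) (T : ℕ) : Fin (r * T) → Fin r :=
  fun x => s ⟨x.val % r, Nat.mod_lt _ hr⟩

/-- Descents of `a` with respect to the inverse of `s`. -/
def desc {r k' : ℕ} (s : Equiv.Perm (Fin r)) (a : Fin (k' + 1) → Fin r) : Finset (Fin k') :=
  univ.filter (fun u => s.symm (a u.succ) < s.symm (a u.castSucc))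

/-- Descents before `t`. -/
def dcb {r k' : ℕ} (s : Equiv.Perm (Fin r)) (a : Fin (k' + 1) → Fin r) (t : Fin (k' + 1)) :
    ℕ := ((desc s a).filter (fun u => u.castSucc < t)).card

lemma dcb_mono {r k' : ℕ} (s : Equiv.Perm (Fin r)) (a : Fin (k' + 1) → Fin r) (i : Fin k') :
    dcb s a i.castSucc ≤ dcb s a i.succ := by
  apply card_le_card
  intro u hu
  rw [mem_filter] at hu ⊢
  exact ⟨hu.1, hu.2.trans Fin.castSucc_lt_succ⟩

lemma dcb_lt {r k' : ℕ} (s : Equiv.Perm (Fin r)) (a : Fin (k' + 1) → Fin r) (i : Fin k')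
    (hi : i ∈ desc s a) : dcb s a i.castSucc < dcb s a i.succ := by
  apply card_lt_card
  rw [ssubset_iff_of_subset]
  · refine ⟨i, ?_, ?_⟩
    · rw [mem_filter]
      exact ⟨hi, Fin.castSucc_lt_succ⟩
    · rw [mem_filter]
      exact fun h => lt_irrefl _ h.2
  · intro u hu
    rw [mem_filter] at hu ⊢
    exact ⟨hu.1, hu.2.trans Fin.castSucc_lt_succ⟩

lemma dcb_le {r k' : ℕ} (s : Equiv.Perm (Fin r)) (a : Fin (k' + 1) → Fin r) (t : Fin (k' + 1)) :
    dcb s a t ≤ (desc s a).card := card_le_card (filter_subset _ _)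

theorem pword_contains {r k' T : ℕ} (hr : 0 < r) (s : Equiv.Perm (Fin r))
    (a : Fin (k' + 1) → Fin r) (ha : Function.Injective a) (hT : (desc s a).card + 1 ≤ T) :
    ∃ p : Fin (k' + 1) → Fin (r * T), StrictMono p ∧ ∀ t, pword hr s T (p t) = a t := by
  have hlt : ∀ t, r * dcb s a t + (s.symm (a t)).val < r * T := by
    intro t
    have h1 := dcb_le s a t
    have h2 := (s.symm (a t)).isLt
    calc r * dcb s a t + (s.symm (a t)).val < r * dcb s a t + r := by omega
      _ = r * (dcb s a t + 1) := by ring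
      _ ≤ r * T := Nat.mul_le_mul_left _ (by omega)
  refine ⟨fun t => ⟨r * dcb s a t + (s.symm (a t)).val, hlt t⟩, ?_, ?_⟩
  · rw [Fin.strictMono_iff_lt_succ]
    intro i
    rw [Fin.mk_lt_mk]
    by_cases hi : i ∈ desc s a
    · have h1 := dcb_lt s a i hi
      have h2 := (s.symm (a i.castSucc)).isLt
      calc r * dcb s a i.castSucc + (s.symm (a i.castSucc)).val
          < r * dcb s a i.castSucc + r := by omega
        _ = r * (dcb s a i.castSucc + 1) := by ring
        _ ≤ r * dcb s a i.succ := Nat.mul_le_mul_left _ h1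
        _ ≤ _ := Nat.le_add_right _ _
    · have h1 := Nat.mul_le_mul_left r (dcb_mono s a i)
      have h3 : ¬ s.symm (a i.succ) < s.symm (a i.castSucc) := by
        intro h
        apply hi
        simp only [desc, mem_filter, mem_univ, true_and]
        exact h
      have h4 : s.symm (a i.castSucc) ≠ s.symm (a i.succ) := by
        intro h
        have := ha (s.symm.injective h)
        exact (Fin.castSucc_lt_succ (i := i)).ne this
      have h5 : (s.symm (a i.castSucc)).val < (s.symm (a i.succ)).val :=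
        lt_of_le_of_ne (not_lt.mp h3) (fun h => h4 (Fin.ext h))
      omega
  · intro t
    unfold pword
    have h1 : (⟨(r * dcb s a t + (s.symm (a t)).val) % r, Nat.mod_lt _ hr⟩ : Fin r) =
        s.symm (a t) := by
      apply Fin.ext
      change (r * dcb s a t + (s.symm (a t)).val) % r = _
      rw [Nat.mul_add_mod, Nat.mod_eq_of_lt (s.symm (a t)).isLt]
    change s (⟨(r * dcb s a t + (s.symm (a t)).val) % r, Nat.mod_lt _ hr⟩ : Fin r) = a t
    rw [h1, Equiv.apply_symm_apply]

/-- The cyclic successor permutation attached to `τ`. -/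
def cyc {k' : ℕ} (τ : Equiv.Perm (Fin (k' + 1))) : Equiv.Perm (Fin (k' + 1)) :=
  τ.symm.trans ((finRotate (k' + 1)).trans τ)

lemma cyc_apply {k' : ℕ} (τ : Equiv.Perm (Fin (k' + 1))) (t : Fin (k' + 1)) :
    cyc τ (τ t) = τ (t + 1) := by
  unfold cyc
  simp

lemma fin_add_one_ne {k' : ℕ} (hk : 2 ≤ k') (t : Fin (k' + 1)) : t + 1 ≠ t := by
  intro h
  have h1 : (t + 1 : Fin (k' + 1)) = t + 0 := by rw [h, add_zero]
  have h2 := add_left_cancel h1
  have h3 := congrArg Fin.val h2
  rw [Fin.val_one', Fin.val_zero, Nat.mod_eq_of_lt (by omega)] at h3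
  omega

lemma fin_add_two_ne {k' : ℕ} (hk : 2 ≤ k') (t : Fin (k' + 1)) : t + 1 + 1 ≠ t := by
  intro h
  have h1 : (t + (1 + 1) : Fin (k' + 1)) = t + 0 := by rw [← add_assoc, h, add_zero]
  have h2 := add_left_cancel h1
  have h3 := congrArg Fin.val h2
  rw [Fin.val_add, Fin.val_one', Fin.val_zero, Nat.mod_eq_of_lt (a := 1) (by omega),
    Nat.mod_eq_of_lt (by omega)] at h3
  omega

lemma cyc_ne {k' : ℕ} (hk : 2 ≤ k') (τ : Equiv.Perm (Fin (k' + 1))) (i : Fin (k' + 1)) :
    cyc τ i ≠ i := by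
  obtain ⟨t, rfl⟩ := τ.surjective i
  rw [cyc_apply]
  intro h
  exact fin_add_one_ne hk t (τ.injective h)

lemma cyc_cyc_ne {k' : ℕ} (hk : 2 ≤ k') (τ : Equiv.Perm (Fin (k' + 1))) (i : Fin (k' + 1)) :
    cyc τ (cyc τ i) ≠ i := by
  obtain ⟨t, rfl⟩ := τ.surjective i
  rw [cyc_apply, cyc_apply]
  intro h
  exact fin_add_two_ne hk t (τ.injective h)

/-- The main combinatorial theorem in finite form. -/
theorem exists_superpattern {k w g q N' m M n r T R : ℕ} [NeZero (4 * N')] {η : ℝ} (hη : 0 < η)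
    {U : ℕ → Fin (4 * N')} (hU : Gram (4 * N') m M n η U) (hm : 0 < m)
    (hg : 0 < g) (hw : w = 27 * g) (hn : 4 * (w * (w + 1)) ≤ n)
    (hk : 3 ≤ k) (hq : (2 * w + 1) * q ≤ k / w) (hM : k + q + 1 ≤ M)
    (hr : k + q + 1 + 4 * m ^ 3 ≤ r) (hR : r ≤ R)
    (hT : (k : ℝ) / 2 - (q : ℝ) * ((1 - (255 / 256) ^ g) / 2) +
          k * (((w : ℝ) + 1) / (2 * (4 * N' : ℕ)) + η * ((4 * N' : ℕ) : ℝ) ^ n) < T) :
    ∃ σ : Fin (r * T) → Fin R, ∀ τ : Equiv.Perm (Fin k), ∃ p : Fin k → Fin (r * T),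
      StrictMono p ∧ ∀ j j', σ (p j) < σ (p j') ↔ τ j < τ j' := by
  classical
  obtain ⟨k', rfl⟩ : ∃ k', k = k' + 1 := ⟨k - 1, by omega⟩
  have hr0 : 0 < r := by omega
  let s : Equiv.Perm (Fin r) := Tuple.sort (fun i : Fin r => U i.val)
  refine ⟨fun x => Fin.castLE hR (pword hr0 s T x), ?_⟩
  intro τ
  obtain ⟨V, hV, hVb, hVc⟩ := exists_assignment (cyc τ) hη hU hm hg hw hn
    (cyc_ne (by omega) τ) (cyc_cyc_ne (by omega) τ) hq hM
  have hVr : ∀ i : Fin (k' + 1), V i.val < r := by
    intro i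
    have h1 := hVb i.val
    have h2 := i.isLt
    omega
  let a : Fin (k' + 1) → Fin r := fun t => ⟨V (τ t).val, hVr (τ t)⟩
  have ha_lt : ∀ j j', a j < a j' ↔ τ j < τ j' := by
    intro j j'
    change V (τ j).val < V (τ j').val ↔ _
    rw [hV.lt_iff_lt]
    exact Iff.rfl
  have ha : Function.Injective a := by
    intro x y hxy
    have h1 : V (τ x).val = V (τ y).val := congrArg Fin.val hxy
    exact τ.injective (Fin.ext (hV.injective h1))
  -- descents
  have hmono : Monotone (fun i => U (s i).val) := Tuple.monotone_sort (fun i : Fin r => U i.val)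
  have hdesc : (desc s a).card ≤
      ((univ : Finset (Fin (k' + 1))).filter
        (fun i => U (V (cyc τ i).val) ≤ U (V i.val))).card := by
    apply card_le_card_of_injOn (fun u => τ u.castSucc)
    · intro u hu
      rw [mem_coe] at hu
      simp only [desc, mem_filter, mem_univ, true_and] at hu
      rw [mem_coe]
      simp only [mem_filter, mem_univ, true_and]
      rw [cyc_apply, Fin.coeSucc_eq_succ]
      have h1 := hmono hu.le
      simp only [Equiv.apply_symm_apply] at h1
      exact h1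
    · intro u _ v _ huv
      exact Fin.castSucc_injective _ (τ.injective huv)
  have hT' : (desc s a).card + 1 ≤ T := by
    have h1 : ((desc s a).card : ℝ) < T := by
      refine lt_of_le_of_lt ?_ hT
      refine le_trans ?_ hVc
      exact_mod_cast hdesc
    have h2 : (desc s a).card < T := by exact_mod_cast h1
    omega
  obtain ⟨p, hp, hpa⟩ := pword_contains hr0 s a ha hT'
  refine ⟨p, hp, ?_⟩
  intro j j'
  change Fin.castLE hR (pword hr0 s T (p j)) < Fin.castLE hR (pword hr0 s T (p j')) ↔ _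
  rw [hpa, hpa, ← ha_lt]
  exact Iff.rfl

end Pool.Agent.H66.SP
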