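import Mathlib
import Pool.Agent.H66.SP.Word

set_option autoImplicit false

open Finset

namespace Pool.Agent.H66.SP

/-- Choice of `g`. -/
lemma exists_g {c : ℝ} (hc : 0 < c) : ∃ g : ℕ, 0 < g ∧
    1 / ((27 * g : ℕ) * (2 * (27 * g : ℕ) + 1) : ℝ) ≤ c ∧
    (255 / 256 : ℝ) ^ g ≤ 1 / ((27 * g : ℕ) * (2 * (27 * g : ℕ) + 1) : ℝ) / 4 := by
  have h1 : Filter.Tendsto (fun n : ℕ => (n : ℝ) ^ 2 * (255 / 256 : ℝ) ^ n) Filter.atTop
      (nhds 0) := tendsto_pow_const_mul_const_pow_of_abs_lt_one 2 (by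
        rw [abs_of_pos (by norm_num)]; norm_num)
  have h2 : ∀ᶠ n : ℕ in Filter.atTop, (n : ℝ) ^ 2 * (255 / 256 : ℝ) ^ n < 1 / 5940 :=
    h1.eventually (gt_mem_nhds (by norm_num))
  obtain ⟨n0, hn0⟩ := Filter.eventually_atTop.mp h2
  obtain ⟨n1, hn1⟩ := exists_nat_ge (1 / c)
  refine ⟨max n0 n1 + 1, Nat.succ_pos _, ?_, ?_⟩
  · set g := max n0 n1 + 1 with hg
    have hg1 : (1 : ℝ) ≤ g := by
      rw [hg]; push_cast
      have : (0 : ℝ) ≤ max (n0 : ℝ) n1 := le_max_of_le_left (Nat.cast_nonneg _)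
      linarith
    have hgn : 1 / c ≤ g := by
      refine hn1.trans ?_
      have : n1 ≤ g := by omega
      exact_mod_cast this
    have h3 : 1 ≤ c * g := by
      rw [div_le_iff₀ hc] at hgn
      linarith
    rw [div_le_iff₀ (by positivity)]
    push_cast
    have h4 : (g : ℝ) ≤ 27 * (g : ℝ) * (2 * (27 * (g : ℝ)) + 1) := by nlinarith
    calc (1 : ℝ) ≤ c * g := h3
      _ ≤ c * (27 * (g : ℝ) * (2 * (27 * (g : ℝ)) + 1)) := mul_le_mul_of_nonneg_left h4 hc.le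
  · set g := max n0 n1 + 1 with hg
    have hg1 : (1 : ℝ) ≤ g := by
      rw [hg]; push_cast
      have : (0 : ℝ) ≤ max (n0 : ℝ) n1 := le_max_of_le_left (Nat.cast_nonneg _)
      linarith
    have h3 := hn0 g (by omega)
    rw [div_div, le_div_iff₀ (by positivity)]
    push_cast
    have hρ : (0 : ℝ) < (255 / 256 : ℝ) ^ g := by positivity
    have h4 : 27 * (g : ℝ) * (2 * (27 * (g : ℝ)) + 1) * 4 ≤ 5940 * (g : ℝ) ^ 2 := by nlinarith
    calc (255 / 256 : ℝ) ^ g * (27 * (g : ℝ) * (2 * (27 * (g : ℝ)) + 1) * 4)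
        ≤ (255 / 256 : ℝ) ^ g * (5940 * (g : ℝ) ^ 2) := mul_le_mul_of_nonneg_left h4 hρ.le
      _ = 5940 * ((g : ℝ) ^ 2 * (255 / 256 : ℝ) ^ g) := by ring
      _ ≤ 1 := by linarith

/-- The fourth root. -/
lemma fourth_root (k : ℕ) : ∃ m : ℕ, m ^ 4 ≤ k ∧ k < (m + 1) ^ 4 := by
  refine ⟨Nat.sqrt (Nat.sqrt k), ?_, ?_⟩
  · have h1 := Nat.sqrt_le' (Nat.sqrt k)
    have h2 := Nat.sqrt_le' k
    calc Nat.sqrt (Nat.sqrt k) ^ 4 = (Nat.sqrt (Nat.sqrt k) ^ 2) ^ 2 := by ring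
      _ ≤ (Nat.sqrt k) ^ 2 := Nat.pow_le_pow_left h1 2
      _ ≤ k := h2
  · have h1 := Nat.lt_succ_sqrt' (Nat.sqrt k)
    have h2 := Nat.lt_succ_sqrt' k
    calc k < (Nat.sqrt k).succ ^ 2 := h2
      _ ≤ ((Nat.sqrt (Nat.sqrt k)).succ ^ 2) ^ 2 := Nat.pow_le_pow_left h1 2
      _ = _ := by rw [Nat.succ_eq_add_one]; ring

/-- The upper bound: short superpatterns exist. -/
theorem exists_short (C : ℝ) (hC : 1 < C) : ∃ ε : ℝ, 0 < ε ∧ ∃ K : ℕ, ∀ k : ℕ, K ≤ k →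
    ∃ n : ℕ, (n : ℝ) < (1 / 2 - ε) * (k : ℝ) ^ 2 ∧
      ∃ σ : Fin n → Fin ⌊C * (k : ℝ)⌋₊, ∀ τ : Equiv.Perm (Fin k), ∃ p : Fin k → Fin n,
        StrictMono p ∧ ∀ j j', σ (p j) < σ (p j') ↔ τ j < τ j' := by
  obtain ⟨g, hg, hδ1, hρδ⟩ := exists_g (c := (C - 1) / 2) (by linarith)
  set w : ℕ := 27 * g with hw
  have hw1 : 27 ≤ w := by omega
  have hwR : (27 : ℝ) ≤ w := by exact_mod_cast hw1
  set L : ℕ := w * (2 * w + 1) with hL
  have hLpos : 0 < L := by positivity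
  have hLR : (L : ℝ) = (w : ℝ) * (2 * w + 1) := by rw [hL]; push_cast; ring
  set δ : ℝ := 1 / ((w : ℝ) * (2 * w + 1)) with hδ
  have hδpos : 0 < δ := by positivity
  have hδle : δ ≤ 1 := by
    rw [hδ, div_le_one (by positivity)]
    nlinarith
  have hδL : δ * L = 1 := by
    rw [hδ, hLR]
    field_simp
  set κ : ℝ := δ ^ 2 / 24 with hκ
  have hκpos : 0 < κ := by positivity
  have hκle : κ ≤ δ / 24 := by
    rw [hκ]
    nlinarith
  -- N'
  obtain ⟨N1, hN1⟩ := exists_nat_ge (((w : ℝ) + 1) / κ)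
  set N' : ℕ := N1 + 1 with hN'
  have : NeZero (4 * N') := ⟨by omega⟩
  set N : ℝ := ((4 * N' : ℕ) : ℝ) with hN
  have hNpos : (1 : ℝ) ≤ N := by
    rw [hN]
    have : 1 ≤ 4 * N' := by omega
    exact_mod_cast this
  have hNbig : 4 * (((w : ℝ) + 1) / κ) ≤ N := by
    rw [hN, hN']
    push_cast
    linarith
  have herr1 : ((w : ℝ) + 1) / (2 * N) ≤ κ / 4 := by
    have h1 : ((w : ℝ) + 1) ≤ N * κ / 4 := by
      have h2 : 4 * (((w : ℝ) + 1) / κ) * κ ≤ N * κ := mul_le_mul_of_nonneg_right hNbig hκpos.le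
      have h3 : 4 * (((w : ℝ) + 1) / κ) * κ = 4 * ((w : ℝ) + 1) := by
        field_simp
      linarith
    rw [div_le_iff₀ (by positivity)]
    nlinarith
  set n : ℕ := 4 * (w * (w + 1)) with hn
  set η : ℝ := (κ / 4) / N ^ n with hη
  have hNn : (1 : ℝ) ≤ N ^ n := one_le_pow₀ hNpos
  have hηpos : 0 < η := by positivity
  have hη1 : η ≤ 1 := by
    rw [hη, div_le_one (by positivity)]
    linarith
  have herr2 : η * N ^ n = κ / 4 := by
    rw [hη]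
    field_simp
  obtain ⟨m0, hm0⟩ := exists_gram (4 * N') n hηpos hη1
  obtain ⟨m1, hm1⟩ := exists_nat_ge (8 / κ)
  obtain ⟨k1, hk1⟩ := exists_nat_ge (3 / κ)
  set m2 : ℕ := max m0 m1 + 1 with hm2
  refine ⟨δ ^ 2 / 16, by positivity, max (max k1 3) (m2 ^ 4), fun k hk => ?_⟩
  have hk3 : 3 ≤ k := le_trans (le_trans (le_max_right _ _) (le_max_left _ _)) hk
  have hkk1 : k1 ≤ k := le_trans (le_trans (le_max_left _ _) (le_max_left _ _)) hk
  have hkm2 : m2 ^ 4 ≤ k := le_trans (le_max_right _ _) hk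
  obtain ⟨m, hmk, hkm⟩ := fourth_root k
  have hm2m : m2 ≤ m := by
    have h1 : m2 ^ 4 < (m + 1) ^ 4 := lt_of_le_of_lt hkm2 hkm
    have h2 := lt_of_pow_lt_pow_left₀ 4 (Nat.zero_le _) h1
    omega
  have hmpos : 0 < m := by omega
  have hmm0 : m0 ≤ m := by
    have : m0 ≤ max m0 m1 := le_max_left _ _
    omega
  have hmm1 : m1 ≤ m := by
    have : m1 ≤ max m0 m1 := le_max_right _ _
    omega
  obtain ⟨U, hU⟩ := hm0 m hmm0
  have hGram : Gram (4 * N') m (100 * m ^ 4) n η U := hU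
  set q : ℕ := k / L with hq
  have hqk : q ≤ k := Nat.div_le_self _ _
  have hq1 : (2 * w + 1) * q ≤ k / w := by
    rw [hq, hL, ← Nat.div_div_eq_div_mul]
    exact Nat.mul_div_le _ _
  have hM : k + q + 1 ≤ 100 * m ^ 4 := by
    have h1 : (m + 1) ^ 4 ≤ (2 * m) ^ 4 := Nat.pow_le_pow_left (by omega) 4
    have h2 : (2 * m) ^ 4 = 16 * m ^ 4 := by ring
    have h3 : 1 ≤ m ^ 4 := Nat.one_le_pow _ _ hmpos
    omega
  have hkR : (3 : ℝ) ≤ k := by exact_mod_cast hk3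
  have hκk : 3 ≤ κ * k := by
    have h1 : 3 / κ ≤ k := hk1.trans (by exact_mod_cast hkk1)
    rw [div_le_iff₀ hκpos] at h1
    linarith
  -- q bounds
  have hqL : (q : ℝ) * L ≤ k := by
    have := Nat.div_mul_le_self k L
    exact_mod_cast this
  have hqU : (k : ℝ) ≤ (q + 1) * L := by
    have h1 := Nat.lt_div_mul_add (a := k) hLpos
    have h2 : k ≤ (q + 1) * L := by
      rw [hq]
      nlinarith
    exact_mod_cast h2
  have hq2 : (q : ℝ) ≤ δ * k := by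
    calc (q : ℝ) = δ * (q * L) := by rw [mul_comm (q : ℝ), ← mul_assoc, hδL, one_mul]
      _ ≤ δ * k := mul_le_mul_of_nonneg_left hqL hδpos.le
  have hq3 : δ * k - 1 ≤ q := by
    have : δ * k ≤ q + 1 := by
      calc δ * k ≤ δ * ((q + 1) * L) := mul_le_mul_of_nonneg_left hqU hδpos.le
        _ = (q + 1) * (δ * L) := by ring
        _ = q + 1 := by rw [hδL, mul_one]
    linarith
  -- m bound
  have hm3 : (4 : ℝ) * m ^ 3 ≤ κ / 2 * k := by
    have h1 : 8 ≤ κ * m := by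
      have h2 : 8 / κ ≤ m := hm1.trans (by exact_mod_cast hmm1)
      rw [div_le_iff₀ hκpos] at h2
      linarith
    have h2 : (m : ℝ) ^ 4 ≤ k := by exact_mod_cast hmk
    have h3 : (0 : ℝ) ≤ (m : ℝ) ^ 3 := by positivity
    calc (4 : ℝ) * m ^ 3 ≤ (κ * m) / 2 * m ^ 3 := by nlinarith
      _ = κ / 2 * m ^ 4 := by ring
      _ ≤ κ / 2 * k := mul_le_mul_of_nonneg_left h2 (by positivity)
  set r : ℕ := k + q + 1 + 4 * m ^ 3 with hr
  have hrR : (r : ℝ) ≤ (1 + δ + κ) * k := by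
    rw [hr]
    push_cast
    nlinarith
  have hrC : r ≤ ⌊C * (k : ℝ)⌋₊ := by
    apply Nat.le_floor
    refine hrR.trans ?_
    apply mul_le_mul_of_nonneg_right _ (Nat.cast_nonneg k)
    linarith
  -- T
  set ρ : ℝ := (255 / 256 : ℝ) ^ g with hρ
  have hρpos : 0 < ρ := by positivity
  have hρ1 : ρ ≤ δ / 4 := hρδ
  set dB : ℝ := (k : ℝ) / 2 - (q : ℝ) * ((1 - ρ) / 2) +
          k * (((w : ℝ) + 1) / (2 * N) + η * N ^ n) with hdB
  set T : ℕ := ⌊dB⌋₊ + 1 with hT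
  have hdT : dB < T := by
    rw [hT]
    push_cast
    exact Nat.lt_floor_add_one dB
  have hdBnn : 0 ≤ dB := by
    rw [hdB, herr2]
    have h1 : (q : ℝ) ≤ k := by exact_mod_cast hqk
    have h2 : 0 ≤ (k : ℝ) * (((w : ℝ) + 1) / (2 * N) + κ / 4) := by positivity
    have h3 : (q : ℝ) * ((1 - ρ) / 2) ≤ k * (1 / 2) := by
      apply mul_le_mul h1 _ _ (Nat.cast_nonneg k)
      · linarith
      · have : ρ ≤ 1 := by linarith
        linarith
    linarith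
  have hTR : (T : ℝ) ≤ (1 / 2 - δ / 2 + δ ^ 2 / 8 + κ) * k := by
    have h1 : (T : ℝ) ≤ dB + 1 := by
      rw [hT]
      push_cast
      linarith [Nat.floor_le hdBnn]
    have h2 : dB ≤ (k : ℝ) / 2 - (δ * k - 1) * ((1 - δ / 4) / 2) + k * (κ / 2) := by
      rw [hdB, herr2]
      have h3 : (δ * k - 1) * ((1 - δ / 4) / 2) ≤ (q : ℝ) * ((1 - ρ) / 2) := by
        have h4 : (δ * k - 1) * ((1 - δ / 4) / 2) ≤ (q : ℝ) * ((1 - δ / 4) / 2) :=
          mul_le_mul_of_nonneg_right hq3 (by linarith)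
        have h5 : (q : ℝ) * ((1 - δ / 4) / 2) ≤ (q : ℝ) * ((1 - ρ) / 2) :=
          mul_le_mul_of_nonneg_left (by linarith) (Nat.cast_nonneg q)
        linarith
      have h6 : (k : ℝ) * (((w : ℝ) + 1) / (2 * N) + κ / 4) ≤ k * (κ / 2) :=
        mul_le_mul_of_nonneg_left (by linarith) (Nat.cast_nonneg k)
      linarith
    have h7 : (1 - δ / 4) / 2 ≤ 1 / 2 := by linarith
    nlinarith
  refine ⟨r * T, ?_, ?_⟩
  · push_cast
    have hk2 : (0 : ℝ) < (k : ℝ) ^ 2 := by positivity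
    have hB0 : (0 : ℝ) ≤ 1 / 2 - δ / 2 + δ ^ 2 / 8 + κ := by
      have : 0 ≤ δ ^ 2 / 8 := by positivity
      linarith
    have h1 : (r : ℝ) * T ≤ ((1 + δ + κ) * k) * ((1 / 2 - δ / 2 + δ ^ 2 / 8 + κ) * k) :=
      mul_le_mul hrR hTR (Nat.cast_nonneg T) (by positivity)
    have h2 : (1 + δ + κ) * (1 / 2 - δ / 2 + δ ^ 2 / 8 + κ) ≤ 1 / 2 - δ ^ 2 / 12 := by
      have e1 : (1 + δ + κ) * (1 / 2 - δ / 2 + δ ^ 2 / 8 + κ) =
          (1 / 2 - 3 * δ ^ 2 / 8 + δ ^ 3 / 8) +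
            κ * ((1 / 2 - δ / 2 + δ ^ 2 / 8) + (1 + δ + κ)) := by ring
      rw [e1]
      have h3 : δ ^ 3 ≤ δ ^ 2 := pow_le_pow_of_le_one hδpos.le hδle (by norm_num)
      have h4 : (1 / 2 - δ / 2 + δ ^ 2 / 8) + (1 + δ + κ) ≤ 4 := by
        have : δ ^ 2 ≤ 1 := pow_le_one₀ hδpos.le hδle
        linarith
      have h5 : κ * ((1 / 2 - δ / 2 + δ ^ 2 / 8) + (1 + δ + κ)) ≤ κ * 4 :=
        mul_le_mul_of_nonneg_left h4 hκpos.le
      have h6 : κ * 4 = δ ^ 2 / 6 := by rw [hκ]; ring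
      linarith
    calc (r : ℝ) * T ≤ ((1 + δ + κ) * k) * ((1 / 2 - δ / 2 + δ ^ 2 / 8 + κ) * k) := h1
      _ = ((1 + δ + κ) * (1 / 2 - δ / 2 + δ ^ 2 / 8 + κ)) * k ^ 2 := by ring
      _ ≤ (1 / 2 - δ ^ 2 / 12) * k ^ 2 := mul_le_mul_of_nonneg_right h2 hk2.le
      _ < (1 / 2 - δ ^ 2 / 16) * k ^ 2 := by
          apply mul_lt_mul_of_pos_right _ hk2
          have : 0 < δ ^ 2 := by positivity
          linarith
  · exact exists_superpattern hηpos hGram hmpos hg hw (le_refl n) hk3 hq1 hM (le_refl r) hrC hdT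

end Pool.Agent.H66.SP
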